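import Pool.Agent.Lib.MP_ed311f_ag.Toric.Map

/-!
# Assembly of the embedded resolution
-/

open Topology

namespace HoloConj

namespace Toric

theorem NN_pos : ∀ j : ToricCore.JJ, 0 < ToricCore.NN j := by
  decide +kernel

theorem nunu_pos : ∀ j : ToricCore.JJ, 0 < ToricCore.nunu j := by
  decide +kernel

theorem NN_ne_nunu : ∀ j : ToricCore.JJ, 4 ∣ ToricCore.NN j → j ≠ j7 →
    ToricCore.NN j ≠ ToricCore.nunu j := by
  decide +kernel

/-- The embedded resolution obtained from the toric variety. -/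
noncomputable def toricRes (C : ToricCore) (hb : TbStatement C) (hc : TcStatement C)
    (hd : TdStatement C) (he : TeStatement C hb) (hf : TfStatement C hb) (hg : TgStatement C) :
    EmbeddedResolution fpoly where
  toChartVariety := C.toVar hb
  h := C.h
  H := Hpoly
  h_chart i u k := (congrFun (C.h_chart i u) k).trans (eval_Hpoly i k u).symm
  h_proper := hc
  h_bij x hx := by
    rw [eval_fpoly] at hx
    exact hd.1 x hx
  h_inv x hx := by
    rw [eval_fpoly] at hx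
    obtain ⟨i, g, P, h1, h2⟩ := hd.2 x hx
    refine ⟨i, g, P, h1, fun x' hx' => ?_⟩
    rw [eval_fpoly] at hx'
    exact h2 x' hx'
  J := ToricCore.JJ
  E := C.EE
  N := ToricCore.NN
  ν := ToricCore.nunu
  N_pos := NN_pos
  ν_pos := nunu_pos
  E_irred j := by
    cases j with
    | none => exact hf
    | some ρ => exact he.1 ρ.1
  E_injective := he.2.1
  iUnion_E y := by
    rw [eval_fpoly]
    exact he.2.2 y
  local_form y := by
    obtain ⟨i, u₀, h1, t, a, h2, h3, h4, h5, h6, h7, h8⟩ := hg y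
    refine ⟨i, u₀, h1, t, a, h2, h3, h4, h5, h6, ?_, h8⟩
    obtain ⟨p, q, hp, hq, h9⟩ := h7
    refine ⟨p, q, hp, hq, fun u => ?_⟩
    rw [eval_fpoly]
    exact h9 u

theorem j_ne : j7 ≠ j10 ∧ j7 ≠ j9 ∧ j7 ≠ j14 ∧ j10 ≠ j9 ∧ j10 ≠ j14 ∧ j9 ≠ j14 := by
  decide

theorem toric_of_core (C : ToricCore) (hb : TbStatement C) (hc : TcStatement C)
    (hd : TdStatement C) (he : TeStatement C hb) (hf : TfStatement C hb) (hg : TgStatement C)
    (hh : ThStatement C) : ToricStatement := by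
  refine ⟨toricRes C hb hc hd he hf hg, j7, j10, j9, j14, j_ne.1, j_ne.2.1, j_ne.2.2.1,
    j_ne.2.2.2.1, j_ne.2.2.2.2.1, j_ne.2.2.2.2.2, ⟨rfl, rfl⟩, ⟨rfl, rfl⟩, ⟨rfl, rfl⟩, ⟨rfl, rfl⟩,
    NN_ne_nunu, hh.1, hh.2.1, hh.2.2.1, hh.2.2.2.1, hh.2.2.2.2.1, hh.2.2.2.2.2⟩

end Toric

end HoloConj
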