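import Pool.Agent.Lib.MP_ed311f_ag.Pieces

/-!
# Interface of the toric variety

`ToricCore` is what is needed from the construction of the toric variety of the fan
(`FanData.lean`); everything else is proved from it. The monomial calculus `chi` is here.
-/

open Topology

namespace HoloConj

namespace Toric

/-- the Laurent monomial `m` in the coordinates of the chart `σ` -/
noncomputable def chi (σ : Fin 48) (m : Fin 4 → ℤ) (u : Fin 4 → ℂ) : ℂ :=
  ∏ k, u k ^ pair m (ray (cone σ k))

/-- the overlap of chart `σ` with chart `τ`: the coordinates of the rays which are not in `τ` do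
not vanish -/
def Dom (σ τ : Fin 48) : Set (Fin 4 → ℂ) := {u | ∀ k, (∀ l, cone τ l ≠ cone σ k) → u k ≠ 0}

/-- The toric variety of the fan: its complex points, its charts and their gluing. -/
structure ToricCore where
  Pt : Type
  [top : TopologicalSpace Pt]
  [t2 : T2Space Pt]
  chart : Fin 48 → (Fin 4 → ℂ) → Pt
  isOpenEmbedding_chart : ∀ σ, IsOpenEmbedding (chart σ)
  exists_chart : ∀ y, ∃ σ u, chart σ u = y
  chart_eq_iff : ∀ σ τ u v, chart σ u = chart τ v ↔
    u ∈ Dom σ τ ∧ ∀ l, v l = chi σ (dual τ l) u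

attribute [instance] ToricCore.top ToricCore.t2

/-! ### Bilinearity of `pair` and dual bases -/

theorem pair_add_left (m m' v : Fin 4 → ℤ) : pair (m + m') v = pair m v + pair m' v := by
  simp only [pair, Pi.add_apply]; ring

theorem pair_sub_left (m m' v : Fin 4 → ℤ) : pair (m - m') v = pair m v - pair m' v := by
  simp only [pair, Pi.sub_apply]; ring

theorem pair_neg_left (m v : Fin 4 → ℤ) : pair (-m) v = -pair m v := by
  simp only [pair, Pi.neg_apply]; ring

theorem pair_smul_left (a : ℤ) (m v : Fin 4 → ℤ) : pair (a • m) v = a * pair m v := by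
  simp only [pair, Pi.smul_apply, smul_eq_mul]; ring

theorem pair_eq_sum (m v : Fin 4 → ℤ) : pair m v = ∑ i, m i * v i := by
  rw [pair, Fin.sum_univ_four]

/-- the rays of a cone and the dual basis: `∑_k dual σ k i * ray (cone σ k) j = δ_ij` -/
theorem ray_dual : ∀ (σ : Fin 48) (i j : Fin 4),
    dual σ 0 i * ray (cone σ 0) j + dual σ 1 i * ray (cone σ 1) j +
      dual σ 2 i * ray (cone σ 2) j + dual σ 3 i * ray (cone σ 3) j = if i = j then 1 else 0 := by
  decide +kernel

/-- expansion of a linear form in the dual basis of a cone -/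
theorem pair_expand (σ : Fin 48) (m v : Fin 4 → ℤ) :
    pair m v = ∑ l, pair (dual σ l) v * pair m (ray (cone σ l)) := by
  have h := ray_dual σ
  have h00 := h 0 0
  have h01 := h 0 1
  have h02 := h 0 2
  have h03 := h 0 3
  have h10 := h 1 0
  have h11 := h 1 1
  have h12 := h 1 2
  have h13 := h 1 3
  have h20 := h 2 0
  have h21 := h 2 1
  have h22 := h 2 2
  have h23 := h 2 3
  have h30 := h 3 0
  have h31 := h 3 1
  have h32 := h 3 2
  have h33 := h 3 3
  rw [if_pos rfl] at h00 h11 h22 h33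
  rw [if_neg (by decide)] at h01 h02 h03 h10 h12 h13 h20 h21 h23 h30 h31 h32
  rw [Fin.sum_univ_four]
  simp only [pair]
  linear_combination -(m 0 * v 0) * h00 - (m 1 * v 0) * h01 - (m 2 * v 0) * h02 -
    (m 3 * v 0) * h03 - (m 0 * v 1) * h10 - (m 1 * v 1) * h11 - (m 2 * v 1) * h12 -
    (m 3 * v 1) * h13 - (m 0 * v 2) * h20 - (m 1 * v 2) * h21 - (m 2 * v 2) * h22 -
    (m 3 * v 2) * h23 - (m 0 * v 3) * h30 - (m 1 * v 3) * h31 - (m 2 * v 3) * h32 -
    (m 3 * v 3) * h33

/-! ### Laurent monomials -/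

theorem chi_zero (σ : Fin 48) (u : Fin 4 → ℂ) : chi σ 0 u = 1 := by
  have : ∀ k, pair 0 (ray (cone σ k)) = 0 := fun k => by simp [pair]
  simp [chi, this]

/-- monomials are multiplicative where the relevant coordinates do not vanish -/
theorem chi_add (σ : Fin 48) (m m' : Fin 4 → ℤ) (u : Fin 4 → ℂ)
    (h : ∀ k, u k = 0 → 0 ≤ pair m (ray (cone σ k)) ∧ 0 ≤ pair m' (ray (cone σ k))) :
    chi σ (m + m') u = chi σ m u * chi σ m' u := by
  rw [chi, chi, chi, ← Finset.prod_mul_distrib]
  refine Finset.prod_congr rfl fun k _ => ?_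
  rw [pair_add_left]
  by_cases hk : u k = 0
  · obtain ⟨h1, h2⟩ := h k hk
    obtain ⟨a, ha⟩ := Int.eq_ofNat_of_zero_le h1
    obtain ⟨b, hb⟩ := Int.eq_ofNat_of_zero_le h2
    rw [ha, hb, ← Nat.cast_add, zpow_natCast, zpow_natCast, zpow_natCast, pow_add]
  · exact zpow_add₀ hk _ _

theorem chi_ne_zero (σ : Fin 48) (m : Fin 4 → ℤ) (u : Fin 4 → ℂ)
    (h : ∀ k, u k = 0 → pair m (ray (cone σ k)) = 0) : chi σ m u ≠ 0 := by
  rw [chi, Finset.prod_ne_zero_iff]
  intro k _
  by_cases hk : u k = 0
  · rw [h k hk, zpow_zero]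
    exact one_ne_zero
  · exact zpow_ne_zero _ hk

theorem prod_zpow_four (x : ℂ) (hx : x ≠ 0) (b : Fin 4 → ℤ) :
    ∏ l, x ^ b l = x ^ ∑ l, b l := by
  rw [Fin.prod_univ_four, Fin.sum_univ_four, zpow_add₀ hx, zpow_add₀ hx, zpow_add₀ hx]

/-- change of coordinates for Laurent monomials -/
theorem chi_trans {σ τ : Fin 48} {u v : Fin 4 → ℂ} (hu : u ∈ Dom σ τ)
    (hv : ∀ l, v l = chi σ (dual τ l) u) (m : Fin 4 → ℤ) : chi τ m v = chi σ m u := by
  have h1 : ∀ l, v l ^ pair m (ray (cone τ l)) =
      ∏ k, u k ^ (pair (dual τ l) (ray (cone σ k)) * pair m (ray (cone τ l))) := by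
    intro l
    rw [hv, chi, ← Finset.prod_zpow]
    exact Finset.prod_congr rfl fun k _ => (zpow_mul _ _ _).symm
  rw [chi, Finset.prod_congr rfl fun l _ => h1 l, Finset.prod_comm, chi]
  refine Finset.prod_congr rfl fun k _ => ?_
  rw [pair_expand τ m]
  by_cases hk : u k = 0
  · have : ∃ l, cone τ l = cone σ k := by
      by_contra hc
      push Not at hc
      exact hu k hc hk
    obtain ⟨l₀, hl₀⟩ := this
    have hδ : ∀ l, pair (dual τ l) (ray (cone σ k)) = if l = l₀ then 1 else 0 := by
      intro l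
      rw [← hl₀, dual_ray]
    have e1 : ∀ l, u k ^ (pair (dual τ l) (ray (cone σ k)) * pair m (ray (cone τ l))) =
        if l = l₀ then u k ^ pair m (ray (cone τ l₀)) else 1 := by
      intro l
      rw [hδ]
      split_ifs with h
      · rw [h, one_mul]
      · rw [zero_mul, zpow_zero]
    rw [Finset.prod_congr rfl fun l _ => e1 l, Finset.prod_ite_eq' Finset.univ l₀]
    have e2 : ∑ l, pair (dual τ l) (ray (cone σ k)) * pair m (ray (cone τ l)) =
        pair m (ray (cone τ l₀)) := by
      simp only [hδ, ite_mul, one_mul, zero_mul]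
      rw [Finset.sum_ite_eq' Finset.univ l₀]
      simp
    rw [e2]
    simp
  · exact prod_zpow_four _ hk _

/-- vanishing coordinates correspond -/
theorem zero_iff_of_trans {σ τ : Fin 48} {u v : Fin 4 → ℂ} (hu : u ∈ Dom σ τ)
    (hv : ∀ l, v l = chi σ (dual τ l) u) (l : Fin 4) :
    v l = 0 ↔ ∃ k, cone σ k = cone τ l ∧ u k = 0 := by
  constructor
  · intro h
    rw [hv, chi, Finset.prod_eq_zero_iff] at h
    obtain ⟨k, _, hk⟩ := h
    have hk0 : u k = 0 := by
      by_contra hc
      exact zpow_ne_zero _ hc hk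
    have : ∃ l', cone τ l' = cone σ k := by
      by_contra hc
      push Not at hc
      exact hu k hc hk0
    obtain ⟨l', hl'⟩ := this
    refine ⟨k, ?_, hk0⟩
    have hδ : pair (dual τ l) (ray (cone σ k)) = if l = l' then 1 else 0 := by
      rw [← hl', dual_ray]
    rw [hδ] at hk
    split_ifs at hk with h
    · rw [← hl', h]
    · rw [zpow_zero] at hk
      exact absurd hk one_ne_zero
  · rintro ⟨k, hk, hk0⟩
    rw [hv, chi, Finset.prod_eq_zero_iff]
    refine ⟨k, Finset.mem_univ k, ?_⟩
    have hδ : pair (dual τ l) (ray (cone σ k)) = 1 := by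
      rw [hk, dual_ray, if_pos rfl]
    rw [hδ, zpow_one]
    exact hk0

/-! ### The morphism and the strict transform in the charts -/

/-- coordinate functions as linear forms -/
def ei (i : Fin 4) : Fin 4 → ℤ := fun j => if j = i then 1 else 0

/-- the morphism `h` in the chart `σ` -/
noncomputable def hmap (σ : Fin 48) (u : Fin 4 → ℂ) : Fin 4 → ℂ := fun i => chi σ (ei i) u

/-- an index `j` such that the monomial `expo j` is minimal on the cone `σ` -/
noncomputable def jmin (σ : Fin 48) : Fin 4 := Classical.choose (newton σ)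

theorem jmin_spec (σ : Fin 48) (k : Fin 4) :
    pair (expo (jmin σ)) (ray (cone σ k)) = rN (cone σ k) := Classical.choose_spec (newton σ) k

/-- the strict transform `f ∘ h / ∏ u_k ^ N_k` in the chart `σ` -/
noncomputable def ftil (σ : Fin 48) (u : Fin 4 → ℂ) : ℂ :=
  ∑ j, chi σ (expo j - expo (jmin σ)) u

end Toric

end HoloConj
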