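import Pool.Agent.Lib.MP_ed311f_ag.Toric.Core

/-!
# The morphism `h`, the polynomials in the charts, and the components
-/

open Topology

namespace HoloConj

namespace Toric

/-! ### Monomials as polynomials -/

/-- the monomial `m` in chart `σ` as a polynomial (correct when all exponents are nonnegative) -/
noncomputable def monoPoly (σ : Fin 48) (m : Fin 4 → ℤ) : MvPolynomial (Fin 4) ℂ :=
  ∏ k, MvPolynomial.X k ^ (pair m (ray (cone σ k))).toNat

theorem eval_monoPoly (σ : Fin 48) (m : Fin 4 → ℤ) (u : Fin 4 → ℂ)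
    (h : ∀ k, 0 ≤ pair m (ray (cone σ k))) :
    MvPolynomial.eval u (monoPoly σ m) = chi σ m u := by
  rw [monoPoly, map_prod, chi]
  refine Finset.prod_congr rfl fun k _ => ?_
  rw [map_pow, MvPolynomial.eval_X, ← zpow_natCast, Int.toNat_of_nonneg (h k)]

theorem pair_ei_nonneg : ∀ (σ : Fin 48) (i k : Fin 4), 0 ≤ pair (ei i) (ray (cone σ k)) := by
  decide +kernel

/-- the polynomials giving `h` in the chart `σ` -/
noncomputable def Hpoly (σ : Fin 48) (i : Fin 4) : MvPolynomial (Fin 4) ℂ := monoPoly σ (ei i)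

theorem eval_Hpoly (σ : Fin 48) (i : Fin 4) (u : Fin 4 → ℂ) :
    MvPolynomial.eval u (Hpoly σ i) = hmap σ u i :=
  eval_monoPoly σ _ u (pair_ei_nonneg σ i)

theorem pair_expo_ge (σ : Fin 48) (j k : Fin 4) :
    (rN (cone σ k) : ℤ) ≤ pair (expo j) (ray (cone σ k)) := (rN_eq (cone σ k)).1 j

theorem pair_expo_sub_nonneg (σ : Fin 48) (j k : Fin 4) :
    0 ≤ pair (expo j - expo (jmin σ)) (ray (cone σ k)) := by
  rw [pair_sub_left, jmin_spec]
  linarith [pair_expo_ge σ j k]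

/-- the strict transform in the chart `σ` as a polynomial -/
noncomputable def Fpoly (σ : Fin 48) : MvPolynomial (Fin 4) ℂ :=
  ∑ j, monoPoly σ (expo j - expo (jmin σ))

theorem eval_Fpoly (σ : Fin 48) (u : Fin 4 → ℂ) :
    MvPolynomial.eval u (Fpoly σ) = ftil σ u := by
  rw [Fpoly, map_sum, ftil]
  exact Finset.sum_congr rfl fun j _ => eval_monoPoly σ _ u (pair_expo_sub_nonneg σ j)

theorem chi_natsmul (σ : Fin 48) (m : Fin 4 → ℤ) (u : Fin 4 → ℂ)
    (h : ∀ k, 0 ≤ pair m (ray (cone σ k))) (n : ℕ) : chi σ ((n : ℤ) • m) u = chi σ m u ^ n := by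
  rw [chi, chi, ← Finset.prod_pow]
  refine Finset.prod_congr rfl fun k _ => ?_
  rw [pair_smul_left, mul_comm, zpow_mul, zpow_natCast]

/-- each monomial of `f`, pulled back to the chart -/
theorem chi_expo (σ : Fin 48) (j : Fin 4) (u : Fin 4 → ℂ) :
    chi σ (expo j) u = hmap σ u 0 ^ (expo j 0).toNat * hmap σ u 1 ^ (expo j 1).toNat *
      hmap σ u 2 ^ (expo j 2).toNat * hmap σ u 3 ^ (expo j 3).toNat := by
  have hnn : ∀ j i : Fin 4, 0 ≤ expo j i := by decide +kernel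
  have e : expo j = (((expo j 0).toNat : ℤ) • ei 0 + ((expo j 1).toNat : ℤ) • ei 1) +
      ((expo j 2).toNat : ℤ) • ei 2 + ((expo j 3).toNat : ℤ) • ei 3 := by
    funext i
    rw [Int.toNat_of_nonneg (hnn j 0), Int.toNat_of_nonneg (hnn j 1),
      Int.toNat_of_nonneg (hnn j 2), Int.toNat_of_nonneg (hnn j 3)]
    fin_cases i <;> simp [ei]
  have hp : ∀ (n : ℕ) (i k : Fin 4), 0 ≤ pair ((n : ℤ) • ei i) (ray (cone σ k)) := by
    intro n i k
    rw [pair_smul_left]
    exact mul_nonneg (Int.natCast_nonneg n) (pair_ei_nonneg σ i k)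
  have hp2 : ∀ (m m' : Fin 4 → ℤ), (∀ k, 0 ≤ pair m (ray (cone σ k))) →
      (∀ k, 0 ≤ pair m' (ray (cone σ k))) → ∀ k, 0 ≤ pair (m + m') (ray (cone σ k)) := by
    intro m m' h h' k
    rw [pair_add_left]
    exact add_nonneg (h k) (h' k)
  conv_lhs => rw [e]
  rw [chi_add, chi_add, chi_add, chi_natsmul _ _ _ (pair_ei_nonneg σ 0),
    chi_natsmul _ _ _ (pair_ei_nonneg σ 1), chi_natsmul _ _ _ (pair_ei_nonneg σ 2),
    chi_natsmul _ _ _ (pair_ei_nonneg σ 3)]
  · rfl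
  · exact fun k _ => ⟨hp _ _ k, hp _ _ k⟩
  · exact fun k _ => ⟨hp2 _ _ (hp _ _) (hp _ _) k, hp _ _ k⟩
  · exact fun k _ => ⟨hp2 _ _ (hp2 _ _ (hp _ _) (hp _ _)) (hp _ _) k, hp _ _ k⟩

theorem ff_hmap (σ : Fin 48) (u : Fin 4 → ℂ) : ff (hmap σ u) = ∑ j, chi σ (expo j) u := by
  rw [Fin.sum_univ_four]
  simp only [chi_expo]
  simp [expo, ff]
  ring

theorem chi_expo_jmin (σ : Fin 48) (u : Fin 4 → ℂ) :
    chi σ (expo (jmin σ)) u = ∏ k, u k ^ rN (cone σ k) := by
  rw [chi]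
  refine Finset.prod_congr rfl fun k _ => ?_
  rw [jmin_spec, zpow_natCast]

/-- `f ∘ h = ∏ u_k ^ N_k * ftil` -/
theorem ff_hmap_eq (σ : Fin 48) (u : Fin 4 → ℂ) :
    ff (hmap σ u) = (∏ k, u k ^ rN (cone σ k)) * ftil σ u := by
  rw [ff_hmap, ftil, Finset.mul_sum, ← chi_expo_jmin]
  refine Finset.sum_congr rfl fun j _ => ?_
  rw [← chi_add]
  · congr 1
    abel
  · intro k _
    refine ⟨?_, pair_expo_sub_nonneg σ j k⟩
    rw [jmin_spec]
    exact Int.natCast_nonneg _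

theorem ftil_trans {σ τ : Fin 48} {u v : Fin 4 → ℂ} (hu : u ∈ Dom σ τ)
    (hv : ∀ l, v l = chi σ (dual τ l) u) : ftil τ v = 0 ↔ ftil σ u = 0 := by
  have hne : chi σ (expo (jmin σ) - expo (jmin τ)) u ≠ 0 := by
    refine chi_ne_zero σ _ u fun k hk => ?_
    have : ∃ l, cone τ l = cone σ k := by
      by_contra hc
      push Not at hc
      exact hu k hc hk
    obtain ⟨l, hl⟩ := this
    rw [pair_sub_left, jmin_spec, ← hl, jmin_spec, sub_self]
  have h1 : ftil τ v = chi σ (expo (jmin σ) - expo (jmin τ)) u * ftil σ u := by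
    rw [ftil, ftil, Finset.mul_sum]
    refine Finset.sum_congr rfl fun j _ => ?_
    rw [chi_trans hu hv, ← chi_add]
    · congr 1
      abel
    · intro k hk
      have : ∃ l, cone τ l = cone σ k := by
        by_contra hc
        push Not at hc
        exact hu k hc hk
      obtain ⟨l, hl⟩ := this
      refine ⟨?_, pair_expo_sub_nonneg σ j k⟩
      rw [pair_sub_left, jmin_spec, ← hl, jmin_spec, sub_self]
  rw [h1, mul_eq_zero]
  exact ⟨fun h => h.resolve_left hne, Or.inr⟩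

/-! ### Objects on the toric variety -/

namespace ToricCore

variable (C : ToricCore)

/-- the morphism `h : Y → 𝔸⁴` -/
noncomputable def h (y : C.Pt) : Fin 4 → ℂ :=
  hmap (Classical.choose (C.exists_chart y))
    (Classical.choose (Classical.choose_spec (C.exists_chart y)))

theorem h_chart (σ : Fin 48) (u : Fin 4 → ℂ) : C.h (C.chart σ u) = hmap σ u := by
  have h1 := Classical.choose_spec (Classical.choose_spec (C.exists_chart (C.chart σ u)))
  obtain ⟨h2, h3⟩ := (C.chart_eq_iff _ _ _ _).1 h1.symm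
  funext i
  exact chi_trans h2 h3 _

/-- the divisor of a ray -/
def Eray (ρ : Fin 18) : Set C.Pt := {y | ∃ σ u k, C.chart σ u = y ∧ cone σ k = ρ ∧ u k = 0}

theorem chart_mem_Eray (σ : Fin 48) (u : Fin 4 → ℂ) (ρ : Fin 18) :
    C.chart σ u ∈ C.Eray ρ ↔ ∃ k, cone σ k = ρ ∧ u k = 0 := by
  constructor
  · rintro ⟨τ, v, l, h1, h2, h3⟩
    obtain ⟨h4, h5⟩ := (C.chart_eq_iff _ _ _ _).1 h1.symm
    obtain ⟨k, hk, hk'⟩ := (zero_iff_of_trans h4 h5 l).1 h3
    exact ⟨k, hk.trans h2, hk'⟩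
  · rintro ⟨k, hk, hk'⟩
    exact ⟨σ, u, k, rfl, hk, hk'⟩

/-- the strict transform of `{f = 0}` -/
def Estr : Set C.Pt := {y | ∃ σ u, C.chart σ u = y ∧ ftil σ u = 0}

theorem chart_mem_Estr (σ : Fin 48) (u : Fin 4 → ℂ) :
    C.chart σ u ∈ C.Estr ↔ ftil σ u = 0 := by
  constructor
  · rintro ⟨τ, v, h1, h2⟩
    obtain ⟨h4, h5⟩ := (C.chart_eq_iff _ _ _ _).1 h1.symm
    exact (ftil_trans h4 h5).1 h2
  · intro h
    exact ⟨σ, u, rfl, h⟩

/-- index set of the components: the rays with `N ≠ 0` and (`none`) the strict transform -/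
abbrev JJ : Type := Option {ρ : Fin 18 // rN ρ ≠ 0}

/-- the components -/
def EE : JJ → Set C.Pt
  | none => C.Estr
  | some ρ => C.Eray ρ.1

/-- the multiplicities -/
def NN : JJ → ℕ
  | none => 1
  | some ρ => rN ρ.1

/-- the numbers `ν` -/
def nunu : JJ → ℕ
  | none => 1
  | some ρ => rnu ρ.1

end ToricCore

/-! ### Statements of the toric pieces -/

/-- T-b: gluing data is algebraic, any two charts meet -/
def TbStatement (C : ToricCore) : Prop :=
  (∀ i j, ∃ u v, C.chart i u = C.chart j v) ∧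
  ∀ i j, ∃ (g : MvPolynomial (Fin 4) ℂ) (P : Fin 4 → MvPolynomial (Fin 4) ℂ),
    (∀ u, C.chart i u ∈ Set.range (C.chart j) ↔ MvPolynomial.eval u g ≠ 0) ∧
    ∀ u v, C.chart i u = C.chart j v → ∀ k, v k * MvPolynomial.eval u g = MvPolynomial.eval u (P k)

/-- T-c: properness -/
def TcStatement (C : ToricCore) : Prop := IsProperMap C.h

/-- T-d: isomorphism over `{f ≠ 0}` -/
def TdStatement (C : ToricCore) : Prop :=
  (∀ x, ff x ≠ 0 → ∃! y, C.h y = x) ∧
  ∀ x, ff x ≠ 0 → ∃ (i : Fin 48) (g : MvPolynomial (Fin 4) ℂ)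
    (P : Fin 4 → MvPolynomial (Fin 4) ℂ), MvPolynomial.eval x g ≠ 0 ∧
    ∀ x', ff x' ≠ 0 → MvPolynomial.eval x' g ≠ 0 →
      C.h (C.chart i fun k => MvPolynomial.eval x' (P k) / MvPolynomial.eval x' g) = x'

/-- the underlying variety -/
noncomputable def ToricCore.toVar (C : ToricCore) (hb : TbStatement C) : ChartVariety 4 where
  Pt := C.Pt
  ι := Fin 48
  chart := C.chart
  isOpenEmbedding_chart := C.isOpenEmbedding_chart
  exists_chart := C.exists_chart
  overlap_nonempty := hb.1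
  transition := hb.2

/-- T-e: the divisors of the rays are irreducible (for all rays), and distinct -/
def TeStatement (C : ToricCore) (hb : TbStatement C) : Prop :=
  (∀ ρ, (C.toVar hb).IsIrred (C.Eray ρ)) ∧ Function.Injective C.EE ∧
  (∀ y, ff (C.h y) = 0 ↔ ∃ j, y ∈ C.EE j)

/-- T-f: the strict transform is irreducible -/
def TfStatement (C : ToricCore) (hb : TbStatement C) : Prop := (C.toVar hb).IsIrred C.Estr

/-- T-g: local form -/
def TgStatement (C : ToricCore) : Prop :=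
  ∀ y, ∃ (i : Fin 48) (u₀ : Fin 4 → ℂ), C.chart i u₀ = y ∧
    ∃ (t : Fin 4 → MvPolynomial (Fin 4) ℂ) (a : Fin 4 → Option ToricCore.JJ),
      (∀ k, MvPolynomial.eval u₀ (t k) = 0) ∧
      (Matrix.of fun k l => MvPolynomial.eval u₀ (MvPolynomial.pderiv l (t k))).det ≠ 0 ∧
      (∀ k l j, a k = some j → a l = some j → k = l) ∧
      (∀ j, y ∈ C.EE j → ∃ k, a k = some j) ∧
      (∀ k j, a k = some j →
        ∀ᶠ u in 𝓝 u₀, (C.chart i u ∈ C.EE j ↔ MvPolynomial.eval u (t k) = 0)) ∧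
      (∃ p q : MvPolynomial (Fin 4) ℂ,
        MvPolynomial.eval u₀ p ≠ 0 ∧ MvPolynomial.eval u₀ q ≠ 0 ∧
        ∀ u, MvPolynomial.eval u q * ff (C.h (C.chart i u)) =
          MvPolynomial.eval u p * ∏ k, MvPolynomial.eval u (t k) ^
            ((a k).elim 0 ToricCore.NN)) ∧
      (∃ p q : MvPolynomial (Fin 4) ℂ,
        MvPolynomial.eval u₀ p ≠ 0 ∧ MvPolynomial.eval u₀ q ≠ 0 ∧
        ∀ u, MvPolynomial.eval u q *
            (Matrix.of fun k l => MvPolynomial.eval u (MvPolynomial.pderiv l (Hpoly i k))).det =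
          MvPolynomial.eval u p * ∏ k, MvPolynomial.eval u (t k) ^
            ((a k).elim 0 fun j => ToricCore.nunu j - 1))

/-- the stratum of a set of components -/
def ToricCore.strat (C : ToricCore) (I : Finset ToricCore.JJ) : Set C.Pt :=
  {y | ∀ j, y ∈ C.EE j ↔ j ∈ I}

/-- the components of the rays 7, 10, 9, 14 -/
def j7 : ToricCore.JJ := some ⟨7, by decide⟩
def j10 : ToricCore.JJ := some ⟨10, by decide⟩
def j9 : ToricCore.JJ := some ⟨9, by decide⟩
def j14 : ToricCore.JJ := some ⟨14, by decide⟩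

/-- T-h: the strata -/
def ThStatement (C : ToricCore) : Prop :=
  Nonempty (C.strat {j7} ≃ₜ S1) ∧ Nonempty (C.strat {j7, j10} ≃ₜ S2) ∧
  Nonempty (C.strat {j7, j9} ≃ₜ S3) ∧ Nonempty (C.strat {j7, j14} ≃ₜ S4) ∧
  Nonempty (C.strat {j7, j9, j14} ≃ₜ S5) ∧
  (∀ I : Finset ToricCore.JJ, j7 ∈ I → (∀ i ∈ I, 4 ∣ ToricCore.NN i) → I ≠ {j7} →
    I ≠ {j7, j10} → I ≠ {j7, j9} → I ≠ {j7, j14} → I ≠ {j7, j9, j14} → IsEmpty (C.strat I))

end Toric

end HoloConj
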