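import Pool.Agent.Lib.MP_ed311f_ag.Toric.Core

/-!
# Construction of the toric variety
-/

open Topology

namespace HoloConj

namespace Toric

theorem pair_lin (σ : Fin 48) (k : Fin 4) : pair (lin σ) (ray (cone σ k)) = supp (cone σ k) := by
  revert σ k
  decide +kernel

/-- the transition relation -/
def Rel (σ τ : Fin 48) (u v : Fin 4 → ℂ) : Prop := u ∈ Dom σ τ ∧ ∀ l, v l = chi σ (dual τ l) u

theorem chi_dual_self (σ : Fin 48) (l : Fin 4) (u : Fin 4 → ℂ) : chi σ (dual σ l) u = u l := by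
  rw [chi]
  have : ∀ k, u k ^ pair (dual σ l) (ray (cone σ k)) = if k = l then u l else 1 := by
    intro k
    rw [dual_ray]
    by_cases h : l = k
    · subst h; simp
    · rw [if_neg h, if_neg (Ne.symm h), zpow_zero]
  rw [Finset.prod_congr rfl fun k _ => this k, Finset.prod_ite_eq' Finset.univ l]
  simp

theorem Rel.refl (σ : Fin 48) (u : Fin 4 → ℂ) : Rel σ σ u u :=
  ⟨fun k h => absurd rfl (h k), fun l => (chi_dual_self σ l u).symm⟩

theorem Rel.symm {σ τ : Fin 48} {u v : Fin 4 → ℂ} (h : Rel σ τ u v) : Rel τ σ v u := by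
  refine ⟨fun l hl h0 => ?_, fun l => ?_⟩
  · obtain ⟨k, hk, _⟩ := (zero_iff_of_trans h.1 h.2 l).1 h0
    exact hl k hk
  · rw [chi_trans h.1 h.2, chi_dual_self]

theorem Rel.trans {σ τ ρ : Fin 48} {u v w : Fin 4 → ℂ} (h : Rel σ τ u v) (h' : Rel τ ρ v w) :
    Rel σ ρ u w := by
  refine ⟨fun k hk h0 => ?_, fun l => ?_⟩
  · by_cases hc : ∃ l, cone τ l = cone σ k
    · obtain ⟨l, hl⟩ := hc
      refine h'.1 l (fun l' h1 => hk l' (h1.trans hl)) ?_
      exact (zero_iff_of_trans h.1 h.2 l).2 ⟨k, hl.symm, h0⟩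
    · push Not at hc
      exact h.1 k hc h0
  · rw [h'.2 l, chi_trans h.1 h.2]

/-- the disjoint union of the charts -/
abbrev TS : Type := Σ _ : Fin 48, (Fin 4 → ℂ)

/-- the inclusion of a chart -/
abbrev inj (τ : Fin 48) (v : Fin 4 → ℂ) : TS := ⟨τ, v⟩

theorem continuous_inj (τ : Fin 48) : Continuous (inj τ) :=
  continuous_sigmaMk (σ := fun _ : Fin 48 => Fin 4 → ℂ)

theorem isOpenMap_inj (τ : Fin 48) : IsOpenMap (inj τ) :=
  isOpenMap_sigmaMk (σ := fun _ : Fin 48 => Fin 4 → ℂ)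

/-- the setoid of the gluing -/
def glue : Setoid TS where
  r a b := Rel a.1 b.1 a.2 b.2
  iseqv := ⟨fun a => Rel.refl a.1 a.2, fun h => h.symm, fun h h' => h.trans h'⟩

/-- the complex points of the toric variety -/
def TPt : Type := Quotient glue

instance : TopologicalSpace TPt := inferInstanceAs (TopologicalSpace (Quotient glue))

/-- the projection -/
def tproj (a : TS) : TPt := Quotient.mk glue a

theorem tproj_eq_iff (a b : TS) :
    tproj a = tproj b ↔ Rel a.1 b.1 a.2 b.2 := by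
  rw [tproj, tproj]
  exact Quotient.eq (r := glue)

theorem continuous_tproj : Continuous tproj := continuous_quotient_mk' (s := glue)

theorem isOpen_Dom (σ τ : Fin 48) : IsOpen (Dom σ τ) := by
  have : Dom σ τ = ⋂ k, {u | (∀ l, cone τ l ≠ cone σ k) → u k ≠ 0} := by
    ext u
    simp only [Dom, Set.mem_ofPred_eq, Set.mem_iInter]
  rw [this]
  refine isOpen_iInter_of_finite fun k => ?_
  by_cases h : ∀ l, cone τ l ≠ cone σ k
  · have e : {u : Fin 4 → ℂ | (∀ l, cone τ l ≠ cone σ k) → u k ≠ 0} = {u | u k ≠ 0} := by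
      ext u
      exact ⟨fun h' => h' h, fun h' _ => h'⟩
    rw [e]
    exact isOpen_ne_fun (continuous_apply k) continuous_const
  · have e : {u : Fin 4 → ℂ | (∀ l, cone τ l ≠ cone σ k) → u k ≠ 0} = Set.univ := by
      ext u
      simp [h]
    rw [e]
    exact isOpen_univ

theorem continuousOn_chi (σ : Fin 48) (m : Fin 4 → ℤ) (s : Set (Fin 4 → ℂ))
    (h : ∀ k, ∀ u ∈ s, u k ≠ 0 ∨ 0 ≤ pair m (ray (cone σ k))) : ContinuousOn (chi σ m) s := by
  unfold chi
  refine continuousOn_finsetProd _ fun k _ => ?_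
  exact ContinuousOn.zpow₀ (continuous_apply k).continuousOn _ fun u hu => h k u hu

theorem continuousOn_trans (σ τ : Fin 48) :
    ContinuousOn (fun u : Fin 4 → ℂ => fun l => chi σ (dual τ l) u) (Dom σ τ) := by
  refine continuousOn_pi.2 fun l => continuousOn_chi σ _ _ fun k u hu => ?_
  by_cases hc : ∃ l', cone τ l' = cone σ k
  · right
    obtain ⟨l', hl'⟩ := hc
    rw [← hl', dual_ray]
    split_ifs <;> norm_num
  · push Not at hc
    exact Or.inl (hu k hc)

theorem isOpenMap_tproj : IsOpenMap tproj := by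
  intro U hU
  have : IsOpen (tproj ⁻¹' (tproj '' U)) := by
    refine isOpen_sigma_iff.2 fun σ => ?_
    change IsOpen (inj σ ⁻¹' (tproj ⁻¹' (tproj '' U)))
    have e : inj σ ⁻¹' (tproj ⁻¹' (tproj '' U)) = ⋃ τ : Fin 48, Dom σ τ ∩
        (fun u : Fin 4 → ℂ => fun l => chi σ (dual τ l) u) ⁻¹' (inj τ ⁻¹' U) := by
      ext u
      simp only [Set.mem_preimage, Set.mem_image, Set.mem_iUnion, Set.mem_inter_iff]
      constructor
      · rintro ⟨⟨τ, v⟩, ha, hab⟩
        have h := ((tproj_eq_iff _ _).1 hab).symm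
        refine ⟨τ, h.1, ?_⟩
        have : (fun l => chi σ (dual τ l) u) = v := funext fun l => (h.2 l).symm
        rw [this]
        exact ha
      · rintro ⟨τ, h1, h2⟩
        refine ⟨_, h2, ?_⟩
        rw [tproj_eq_iff]
        exact Rel.symm ⟨h1, fun l => rfl⟩
    rw [e]
    refine isOpen_iUnion fun τ => ?_
    exact (continuousOn_trans σ τ).isOpen_inter_preimage (isOpen_Dom σ τ)
      (isOpen_sigma_iff.1 hU τ)
  exact this

theorem surjective_tproj : Function.Surjective tproj := Quotient.mk_surjective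

theorem isOpenQuotientMap_tproj : IsOpenQuotientMap tproj :=
  ⟨surjective_tproj, continuous_tproj, isOpenMap_tproj⟩

/-- the charts -/
def tchart (σ : Fin 48) (u : Fin 4 → ℂ) : TPt := tproj ⟨σ, u⟩

theorem isOpenEmbedding_tchart (σ : Fin 48) : IsOpenEmbedding (tchart σ) := by
  refine IsOpenEmbedding.of_continuous_injective_isOpenMap ?_ ?_ ?_
  · exact continuous_tproj.comp (continuous_inj σ)
  · intro u v h
    have h' := (tproj_eq_iff _ _).1 h
    funext l
    have h2 := h'.2 l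
    rw [chi_dual_self] at h2
    exact h2.symm
  · exact isOpenMap_tproj.comp (isOpenMap_inj σ)

/-- the separating monomial -/
def sep (σ τ : Fin 48) : Fin 4 → ℤ := lin τ - lin σ

theorem sep_left (σ τ : Fin 48) (k : Fin 4) : 0 ≤ pair (sep σ τ) (ray (cone σ k)) ∧
    (pair (sep σ τ) (ray (cone σ k)) = 0 ↔ ∃ l, cone τ l = cone σ k) := by
  rw [sep, pair_sub_left, pair_lin]
  by_cases h : ∃ l, cone τ l = cone σ k
  · obtain ⟨l, hl⟩ := h
    have : pair (lin τ) (ray (cone σ k)) = supp (cone σ k) := by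
      rw [← hl, pair_lin]
    rw [this, sub_self]
    exact ⟨le_rfl, iff_of_true rfl ⟨l, hl⟩⟩
  · have := supp_strict τ (cone σ k) (fun l hl => h ⟨l, hl⟩)
    refine ⟨by omega, iff_of_false (by omega) h⟩

theorem sep_right (σ τ : Fin 48) (l : Fin 4) : 0 ≤ pair (-sep σ τ) (ray (cone τ l)) := by
  have h := (sep_left τ σ l).1
  have e : -sep σ τ = sep τ σ := by rw [sep, sep, neg_sub]
  rw [e]
  exact h

theorem continuous_chi_nonneg (σ : Fin 48) (m : Fin 4 → ℤ)
    (h : ∀ k, 0 ≤ pair m (ray (cone σ k))) : Continuous (chi σ m) := by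
  rw [← continuousOn_univ]
  exact continuousOn_chi σ m _ fun k u _ => Or.inr (h k)

/-- a closed set containing the graph of the gluing -/
def Cl (σ τ : Fin 48) : Set ((Fin 4 → ℂ) × (Fin 4 → ℂ)) :=
  {p | chi σ (sep σ τ) p.1 * chi τ (-sep σ τ) p.2 = 1}

theorem isClosed_Cl (σ τ : Fin 48) : IsClosed (Cl σ τ) := by
  refine isClosed_eq ?_ continuous_const
  exact ((continuous_chi_nonneg σ _ fun k => (sep_left σ τ k).1).comp continuous_fst).mul
    ((continuous_chi_nonneg τ _ (sep_right σ τ)).comp continuous_snd)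

theorem Cl_dom {σ τ : Fin 48} {p : (Fin 4 → ℂ) × (Fin 4 → ℂ)} (hp : p ∈ Cl σ τ) :
    p.1 ∈ Dom σ τ := by
  intro k hk h0
  have h1 : chi σ (sep σ τ) p.1 ≠ 0 := by
    intro h
    have : chi σ (sep σ τ) p.1 * chi τ (-sep σ τ) p.2 = 1 := hp
    rw [h, zero_mul] at this
    exact zero_ne_one this
  refine h1 ?_
  rw [chi, Finset.prod_eq_zero_iff]
  refine ⟨k, Finset.mem_univ k, ?_⟩
  rw [h0]
  refine zero_zpow _ fun h => ?_
  obtain ⟨l, hl⟩ := (sep_left σ τ k).2.1 h
  exact hk l hl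

theorem Rel_Cl {σ τ : Fin 48} {u v : Fin 4 → ℂ} (h : Rel σ τ u v) : (u, v) ∈ Cl σ τ := by
  show chi σ (sep σ τ) u * chi τ (-sep σ τ) v = 1
  rw [chi_trans h.1 h.2, ← chi_add, add_neg_cancel, chi_zero]
  intro k hk
  have : ∃ l, cone τ l = cone σ k := by
    by_contra hc
    push Not at hc
    exact h.1 k hc hk
  have h1 := (sep_left σ τ k).2.2 this
  rw [pair_neg_left, h1]
  exact ⟨le_rfl, by norm_num⟩

theorem isClosed_Rel (σ τ : Fin 48) :
    IsClosed {p : (Fin 4 → ℂ) × (Fin 4 → ℂ) | Rel σ τ p.1 p.2} := by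
  have hc : ContinuousOn (fun p : (Fin 4 → ℂ) × (Fin 4 → ℂ) =>
      p.2 - fun l => chi σ (dual τ l) p.1) (Cl σ τ) := by
    refine continuousOn_snd.sub ?_
    exact (continuousOn_trans σ τ).comp continuousOn_fst fun p hp => Cl_dom hp
  have h := hc.preimage_isClosed_of_isClosed (isClosed_Cl σ τ) (isClosed_singleton (x := 0))
  convert h using 1
  ext ⟨u, v⟩
  constructor
  · intro hr
    refine ⟨Rel_Cl hr, ?_⟩
    show v - (fun l => chi σ (dual τ l) u) = 0
    rw [sub_eq_zero]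
    exact funext hr.2
  · rintro ⟨h1, h2⟩
    refine ⟨Cl_dom h1, fun l => ?_⟩
    have h3 : v - (fun l => chi σ (dual τ l) u) = 0 := h2
    rw [sub_eq_zero] at h3
    exact congrFun h3 l

instance : T2Space TPt := by
  rw [t2Space_iff_of_isOpenQuotientMap isOpenQuotientMap_tproj, ← isOpen_compl_iff]
  have e : {q : TS × TS |
      tproj q.1 = tproj q.2}ᶜ = ⋃ σ : Fin 48, ⋃ τ : Fin 48,
        Prod.map (inj σ) (inj τ) '' {p | Rel σ τ p.1 p.2}ᶜ := by
    ext ⟨⟨σ, u⟩, ⟨τ, v⟩⟩
    simp only [Set.mem_compl_iff, Set.mem_iUnion, Set.mem_image]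
    constructor
    · intro h
      refine ⟨σ, τ, (u, v), fun h' => h ?_, rfl⟩
      exact (tproj_eq_iff _ _).2 h'
    · rintro ⟨σ', τ', ⟨u', v'⟩, h1, h2⟩ h3
      have h4 := (Prod.mk.inj h2).1
      have h5 := (Prod.mk.inj h2).2
      have h6 : tproj (inj σ' u') = tproj (inj τ' v') := by
        rw [h4, h5]
        exact h3
      exact h1 ((tproj_eq_iff _ _).1 h6)
  rw [e]
  refine isOpen_iUnion fun σ => isOpen_iUnion fun τ => ?_
  exact ((isOpenMap_inj σ).prodMap (isOpenMap_inj τ)) _ (isClosed_Rel σ τ).isOpen_compl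

/-- The toric variety. -/
def toricCore : ToricCore where
  Pt := TPt
  chart := tchart
  isOpenEmbedding_chart := isOpenEmbedding_tchart
  exists_chart y := by
    obtain ⟨⟨σ, u⟩, h⟩ := surjective_tproj y
    exact ⟨σ, u, h⟩
  chart_eq_iff σ τ u v := tproj_eq_iff _ _

end Toric

end HoloConj
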