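import Pool.Agent.Lib.MP_ed311f_ag.Toric.Map

/-!
# Transition functions are algebraic, any two charts meet
-/

open Topology

namespace HoloConj

namespace Toric

namespace Tb

theorem pair_lin_ray : ∀ (σ : Fin 48) (k : Fin 4),
    pair (lin σ) (ray (cone σ k)) = supp (cone σ k) := by decide +kernel

theorem dual_bound : ∀ (σ : Fin 48) (l : Fin 4) (ρ : Fin 18),
    -30 ≤ pair (dual σ l) (ray ρ) := by decide +kernel

/-- the exponent of the denominators -/
def mu (i j : Fin 48) : Fin 4 → ℤ := (30 : ℤ) • (lin j - lin i)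

theorem pair_mu (i j : Fin 48) (k : Fin 4) : pair (mu i j) (ray (cone i k)) =
    30 * (pair (lin j) (ray (cone i k)) - supp (cone i k)) := by
  rw [mu, pair_smul_left, pair_sub_left, pair_lin_ray]

theorem pair_mu_in {i j : Fin 48} {k : Fin 4} (h : ∃ l, cone j l = cone i k) :
    pair (mu i j) (ray (cone i k)) = 0 := by
  obtain ⟨l, hl⟩ := h
  rw [pair_mu, ← hl, pair_lin_ray, sub_self, mul_zero]

theorem pair_mu_out {i j : Fin 48} {k : Fin 4} (h : ∀ l, cone j l ≠ cone i k) :
    30 ≤ pair (mu i j) (ray (cone i k)) := by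
  have h1 := supp_strict j (cone i k) h
  rw [pair_mu]
  omega

theorem pair_mu_nonneg (i j : Fin 48) (k : Fin 4) : 0 ≤ pair (mu i j) (ray (cone i k)) := by
  by_cases h : ∃ l, cone j l = cone i k
  · exact (pair_mu_in h).ge
  · push Not at h
    exact le_trans (by norm_num) (pair_mu_out h)

theorem pair_dual_in {i j : Fin 48} {k : Fin 4} (h : ∃ l, cone j l = cone i k) (l : Fin 4) :
    0 ≤ pair (dual j l) (ray (cone i k)) := by
  obtain ⟨l', hl'⟩ := h
  rw [← hl', dual_ray]
  split_ifs <;> norm_num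

theorem pair_sum_nonneg (i j : Fin 48) (l k : Fin 4) :
    0 ≤ pair (dual j l + mu i j) (ray (cone i k)) := by
  rw [pair_add_left]
  by_cases h : ∃ l, cone j l = cone i k
  · exact add_nonneg (pair_dual_in h l) (pair_mu_nonneg i j k)
  · push Not at h
    have h1 := pair_mu_out h
    have h2 := dual_bound j l (cone i k)
    omega

theorem chi_mu_ne_zero_iff (i j : Fin 48) (u : Fin 4 → ℂ) : chi i (mu i j) u ≠ 0 ↔ u ∈ Dom i j := by
  constructor
  · intro h k hk hk0
    apply h
    rw [chi, Finset.prod_eq_zero_iff]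
    refine ⟨k, Finset.mem_univ k, ?_⟩
    have h1 := pair_mu_out hk
    rw [hk0]
    exact zero_zpow _ (by omega)
  · intro h
    refine chi_ne_zero i _ u fun k hk => pair_mu_in ?_
    by_contra hcon
    push Not at hcon
    exact h k hcon hk

end Tb

open Tb in
/-- T-b -/
theorem tb (C : ToricCore) : TbStatement C := by
  refine ⟨fun i j => ?_, fun i j => ?_⟩
  · refine ⟨fun _ => 1, fun l => chi i (dual j l) fun _ => 1, ?_⟩
    rw [C.chart_eq_iff]
    exact ⟨fun _ _ => one_ne_zero, fun _ => rfl⟩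
  · refine ⟨monoPoly i (mu i j), fun l => monoPoly i (dual j l + mu i j), fun u => ?_, ?_⟩
    · rw [eval_monoPoly i _ u (pair_mu_nonneg i j), chi_mu_ne_zero_iff]
      constructor
      · rintro ⟨v, hv⟩
        exact ((C.chart_eq_iff _ _ _ _).1 hv.symm).1
      · intro h
        exact ⟨fun l => chi i (dual j l) u, ((C.chart_eq_iff _ _ _ _).2 ⟨h, fun _ => rfl⟩).symm⟩
    · intro u v huv l
      obtain ⟨h1, h2⟩ := (C.chart_eq_iff _ _ _ _).1 huv
      rw [eval_monoPoly i _ u (pair_mu_nonneg i j), eval_monoPoly i _ u (pair_sum_nonneg i j l),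
        h2 l, chi_add]
      intro k hk
      refine ⟨pair_dual_in ?_ l, pair_mu_nonneg i j k⟩
      by_contra hcon
      push Not at hcon
      exact h1 k hcon hk

end Toric

end HoloConj
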