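import Pool.Agent.Lib.MP_ed311f_ag.Toric.Map

/-!
# `h` is proper
-/

open Topology

namespace HoloConj

namespace Toric

theorem tc_wall : ∀ (σ : Fin 48) (k : Fin 4),
    (∃ i : Fin 4, ∀ j : Fin 4, dual σ k j = if j = i then 1 else 0) ∨
    ∃ τ : Fin 48, (∀ l, l ≠ k → ∃ l', cone τ l' = cone σ l) ∧
      0 < pair (lin τ) (ray (cone σ k)) - supp (cone σ k) ∧
      ∀ i : Fin 4, lin τ i = lin σ i +
        (pair (lin τ) (ray (cone σ k)) - supp (cone σ k)) * dual σ k i := by
  decide +kernel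

theorem tc_sum : ∀ (σ : Fin 48) (k : Fin 4),
    dual σ k 0 + dual σ k 1 + dual σ k 2 + dual σ k 3 ≤ 10 := by
  decide +kernel

/-- the cones cover the orthant -/
theorem tc_cover (L : Fin 4 → ℝ) (hL : ∀ i, 0 ≤ L i) :
    ∃ σ : Fin 48, ∀ k : Fin 4, 0 ≤ ∑ i, (dual σ k i : ℝ) * L i := by
  obtain ⟨σ, hσ⟩ := Finite.exists_min (fun σ : Fin 48 => ∑ i, (lin σ i : ℝ) * L i)
  refine ⟨σ, fun k => ?_⟩
  rcases tc_wall σ k with ⟨i, hi⟩ | ⟨τ, _, hlam, hτ⟩
  · have : ∑ j, (dual σ k j : ℝ) * L j = L i := by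
      have e : ∀ j, (dual σ k j : ℝ) * L j = if j = i then L i else 0 := by
        intro j
        rw [hi j]
        split_ifs with h
        · rw [h]; simp
        · simp
      rw [Finset.sum_congr rfl fun j _ => e j]
      simp
    rw [this]
    exact hL i
  · set lam := pair (lin τ) (ray (cone σ k)) - supp (cone σ k) with hlamdef
    have h1 := hσ τ
    have h2 : ∑ i, (lin τ i : ℝ) * L i =
        ∑ i, (lin σ i : ℝ) * L i + (lam : ℝ) * ∑ i, (dual σ k i : ℝ) * L i := by
      rw [Finset.mul_sum, ← Finset.sum_add_distrib]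
      refine Finset.sum_congr rfl fun i _ => ?_
      rw [hτ i]
      push_cast
      ring
    rw [h2] at h1
    have h3 : (0 : ℝ) < lam := by exact_mod_cast hlam
    have h4 : 0 ≤ (lam : ℝ) * ∑ i, (dual σ k i : ℝ) * L i := by linarith
    exact nonneg_of_mul_nonneg_right h4 h3

/-- a monomial at a torus point -/
theorem tc_norm_chi (τ : Fin 48) (v : Fin 4 → ℂ) (hv : ∀ k, v k ≠ 0) (m : Fin 4 → ℤ) :
    Real.log ‖chi τ m v‖ = ∑ i, (m i : ℝ) * Real.log ‖hmap τ v i‖ := by
  have h1 : ∀ m : Fin 4 → ℤ, Real.log ‖chi τ m v‖ =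
      ∑ k, (pair m (ray (cone τ k)) : ℝ) * Real.log ‖v k‖ := by
    intro m
    rw [chi, norm_prod, Real.log_prod]
    · refine Finset.sum_congr rfl fun k _ => ?_
      rw [norm_zpow, Real.log_zpow]
    · intro k _
      exact norm_ne_zero_iff.2 (zpow_ne_zero _ (hv k))
  rw [h1 m]
  simp only [hmap, h1]
  simp only [Finset.mul_sum]
  rw [Finset.sum_comm]
  refine Finset.sum_congr rfl fun k _ => ?_
  have h2 : ∀ i, pair (ei i) (ray (cone τ k)) = ray (cone τ k) i := by
    intro i
    fin_cases i <;> simp [pair, ei]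
  simp only [h2]
  rw [Fin.sum_univ_four, pair]
  push_cast
  ring

/-- the compact set -/
def tcK (C : ToricCore) (M : ℝ) : Set C.Pt := ⋃ σ, C.chart σ '' {u | ∀ k, ‖u k‖ ≤ M}

theorem tc_isCompact (C : ToricCore) (M : ℝ) : IsCompact (tcK C M) := by
  refine isCompact_iUnion fun σ => ?_
  have h1 : {u : Fin 4 → ℂ | ∀ k, ‖u k‖ ≤ M} = Set.pi Set.univ fun _ => Metric.closedBall 0 M := by
    ext u
    simp
  rw [h1]
  exact (isCompact_univ_pi fun _ => isCompact_closedBall _ _).image
    (C.isOpenEmbedding_chart σ).continuous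

theorem tc_torus (C : ToricCore) {R : ℝ} (hR : 1 ≤ R) (τ : Fin 48) (v : Fin 4 → ℂ)
    (hv : ∀ k, v k ≠ 0) (hh : ∀ i, ‖hmap τ v i‖ ≤ R) : C.chart τ v ∈ tcK C (R ^ 10) := by
  have hne : ∀ i, hmap τ v i ≠ 0 := fun i => chi_ne_zero τ _ v fun k hk => absurd hk (hv k)
  have hR0 : 0 < R := by linarith
  have hlR : 0 ≤ Real.log R := Real.log_nonneg hR
  obtain ⟨σ, hσ⟩ := tc_cover (fun i => Real.log R - Real.log ‖hmap τ v i‖) (fun i => by
    have := Real.log_le_log (norm_pos_iff.2 (hne i)) (hh i)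
    linarith)
  rw [tcK, Set.mem_iUnion]
  refine ⟨σ, fun k => chi τ (dual σ k) v, ?_, ?_⟩
  · intro k
    have h1 := tc_norm_chi τ v hv (dual σ k)
    have h2 := hσ k
    have h3 : chi τ (dual σ k) v ≠ 0 := chi_ne_zero τ _ v fun k hk => absurd hk (hv k)
    have h4 : Real.log ‖chi τ (dual σ k) v‖ ≤ 10 * Real.log R := by
      rw [h1]
      have h5 : ∑ i, (dual σ k i : ℝ) * (Real.log R - Real.log ‖hmap τ v i‖) =
          (∑ i, (dual σ k i : ℝ)) * Real.log R -
            ∑ i, (dual σ k i : ℝ) * Real.log ‖hmap τ v i‖ := by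
        rw [Finset.sum_mul, ← Finset.sum_sub_distrib]
        refine Finset.sum_congr rfl fun i _ => ?_
        ring
      have h6 : (∑ i, (dual σ k i : ℝ)) ≤ 10 := by
        rw [Fin.sum_univ_four]
        exact_mod_cast tc_sum σ k
      have h7 := mul_le_mul_of_nonneg_right h6 hlR
      rw [h5] at h2
      linarith
    have h8 : Real.log (R ^ 10) = 10 * Real.log R := by
      rw [Real.log_pow]; norm_num
    rw [← h8] at h4
    exact (Real.log_le_log_iff (norm_pos_iff.2 h3) (by positivity)).1 h4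
  · symm
    rw [C.chart_eq_iff]
    exact ⟨fun k _ => hv k, fun l => rfl⟩

theorem tc_continuous (C : ToricCore) : Continuous C.h := by
  rw [continuous_iff_continuousAt]
  intro y
  obtain ⟨σ, u, rfl⟩ := C.exists_chart y
  rw [← (C.isOpenEmbedding_chart σ).continuousAt_iff]
  have h1 : C.h ∘ C.chart σ = fun u i => MvPolynomial.eval u (Hpoly σ i) := by
    funext u i
    rw [eval_Hpoly]
    exact congrFun (C.h_chart σ u) i
  rw [h1]
  exact (continuous_pi fun i => MvPolynomial.continuous_eval _).continuousAt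

theorem tc_mem (C : ToricCore) {R : ℝ} (hR : 0 ≤ R) (y : C.Pt) (hy : ∀ i, ‖C.h y i‖ ≤ R) :
    y ∈ tcK C ((R + 1) ^ 10) := by
  obtain ⟨τ, v, rfl⟩ := C.exists_chart y
  set w : ℝ → Fin 4 → ℂ := fun ε k => if v k = 0 then (ε : ℂ) else v k with hw
  have hwc : Continuous w := by
    refine continuous_pi fun k => ?_
    by_cases h : v k = 0
    · simp only [hw, h, if_true]
      exact Complex.continuous_ofReal
    · simp only [hw, h, if_false]
      exact continuous_const
  have hw0 : w 0 = v := by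
    funext k
    by_cases h : v k = 0
    · simp [hw, h]
    · simp [hw, h]
  have ht : Filter.Tendsto (fun ε => C.chart τ (w ε)) (𝓝[>] 0) (𝓝 (C.chart τ v)) := by
    have h1 : Continuous fun ε => C.chart τ (w ε) :=
      (C.isOpenEmbedding_chart τ).continuous.comp hwc
    have h2 := h1.tendsto 0
    rw [hw0] at h2
    exact h2.mono_left nhdsWithin_le_nhds
  refine (tc_isCompact C _).isClosed.mem_of_tendsto ht ?_
  have h3 : ∀ i, ∀ᶠ ε in 𝓝[>] (0 : ℝ), ‖C.h (C.chart τ (w ε)) i‖ < R + 1 := by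
    intro i
    have h4 : Filter.Tendsto (fun ε => ‖C.h (C.chart τ (w ε)) i‖) (𝓝[>] 0)
        (𝓝 ‖C.h (C.chart τ v) i‖) := by
      have h5 : Continuous fun y => ‖C.h y i‖ :=
        continuous_norm.comp ((continuous_apply i).comp (tc_continuous C))
      exact (h5.tendsto _).comp ht
    exact h4.eventually_lt_const (by linarith [hy i])
  have h6 : ∀ᶠ ε in 𝓝[>] (0 : ℝ), ∀ i, ‖C.h (C.chart τ (w ε)) i‖ < R + 1 :=
    Filter.eventually_all.2 h3
  filter_upwards [h6, self_mem_nhdsWithin] with ε h7 h8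
  have hε : (0 : ℝ) < ε := h8
  refine tc_torus C (by linarith) τ (w ε) ?_ ?_
  · intro k
    by_cases h : v k = 0
    · simp only [hw, h, if_true]
      exact_mod_cast hε.ne'
    · simp only [hw, h, if_false]
      exact h
  · intro i
    rw [← C.h_chart]
    exact (h7 i).le

/-- T-c -/
theorem tc (C : ToricCore) : TcStatement C := by
  rw [TcStatement, isProperMap_iff_isCompact_preimage]
  refine ⟨tc_continuous C, fun K hK => ?_⟩
  obtain ⟨R, hR⟩ := hK.isBounded.exists_norm_le
  refine (tc_isCompact C ((max R 0 + 1) ^ 10)).of_isClosed_subset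
    (hK.isClosed.preimage (tc_continuous C)) ?_
  intro y hy
  refine tc_mem C (le_max_right _ _) y fun i => ?_
  exact (norm_le_pi_norm _ i).trans ((hR _ hy).trans (le_max_left _ _))

end Toric

end HoloConj
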