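import Pool.Agent.Lib.MP_ed311f_ag.Toric.Map

/-!
# T-d: `h` is an isomorphism over `{f ≠ 0}`
-/

open Topology

namespace HoloConj

namespace Toric

namespace Td

/-- the multiplicity vanishes only on the rays `0, 2, 3` -/
theorem rN_zero : ∀ ρ : Fin 18, rN ρ = 0 → ρ = 0 ∨ ρ = 2 ∨ ρ = 3 := by decide

/-- the first four rays are the standard basis vectors -/
theorem ray_std : ∀ (ρ : Fin 18), ρ = 0 ∨ ρ = 1 ∨ ρ = 2 ∨ ρ = 3 →
    ∃ j : Fin 4, ∀ i, ray ρ i = if i = j then 1 else 0 := by decide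

/-- Laurent monomials in terms of the coordinates of the image point -/
theorem chi_eq_prod {τ : Fin 48} {v : Fin 4 → ℂ}
    (hv : ∀ k, v k = 0 → cone τ k = 0 ∨ cone τ k = 1 ∨ cone τ k = 2 ∨ cone τ k = 3)
    (m : Fin 4 → ℤ) : chi τ m v = ∏ i, hmap τ v i ^ m i := by
  have h1 : ∀ i, hmap τ v i ^ m i = ∏ k, v k ^ (ray (cone τ k) i * m i) := by
    intro i
    rw [hmap, chi, ← Finset.prod_zpow]
    refine Finset.prod_congr rfl fun k _ => ?_
    rw [← zpow_mul]
    congr 2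
    fin_cases i <;> simp [pair, ei]
  rw [Finset.prod_congr rfl fun i _ => h1 i, Finset.prod_comm, chi]
  refine Finset.prod_congr rfl fun k _ => ?_
  rw [pair_eq_sum]
  by_cases hk : v k = 0
  · obtain ⟨j, hj⟩ := ray_std _ (hv k hk)
    rw [hk]
    have e1 : ∀ i, (0 : ℂ) ^ (ray (cone τ k) i * m i) = if i = j then (0 : ℂ) ^ m j else 1 := by
      intro i
      rw [hj]
      split_ifs with h
      · rw [h, one_mul]
      · rw [zero_mul, zpow_zero]
    rw [Finset.prod_congr rfl fun i _ => e1 i, Finset.prod_ite_eq' Finset.univ j]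
    have e2 : ∑ i, m i * ray (cone τ k) i = m j := by
      simp only [hj, mul_ite, mul_one, mul_zero]
      rw [Finset.sum_ite_eq' Finset.univ j]
      simp
    rw [e2]
    simp
  · rw [prod_zpow_four _ hk]
    congr 1
    exact Finset.sum_congr rfl fun i _ => mul_comm _ _

/-- the coordinates which vanish over `{f ≠ 0}` belong to the rays `0, 2, 3` -/
theorem cone_of_zero {τ : Fin 48} {v : Fin 4 → ℂ} (hf : ff (hmap τ v) ≠ 0) (k : Fin 4)
    (hk : v k = 0) : cone τ k = 0 ∨ cone τ k = 2 ∨ cone τ k = 3 := by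
  apply rN_zero
  by_contra h
  apply hf
  rw [ff_hmap_eq]
  have : ∏ k, v k ^ rN (cone τ k) = 0 := by
    rw [Finset.prod_eq_zero_iff]
    exact ⟨k, Finset.mem_univ k, by rw [hk, zero_pow h]⟩
  rw [this, zero_mul]

/-- if the coordinate of the ray `e_i` vanishes then so does `x_i` -/
theorem hmap_zero {τ : Fin 48} {v : Fin 4 → ℂ} (k i : Fin 4) (hk : v k = 0)
    (hi : ray (cone τ k) i ≠ 0) : hmap τ v i = 0 := by
  rw [hmap, chi, Finset.prod_eq_zero_iff]
  refine ⟨k, Finset.mem_univ k, ?_⟩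
  have : pair (ei i) (ray (cone τ k)) = ray (cone τ k) i := by
    fin_cases i <;> simp [pair, ei]
  rw [this, hk, zero_zpow _ hi]

theorem ff_ne {x : Fin 4 → ℂ} (hx : ff x ≠ 0) : x 1 ≠ 0 ∧ (x 0 ≠ 0 ∨ x 3 ≠ 0) := by
  constructor
  · intro h; apply hx; simp [ff, h]
  · by_contra h
    push Not at h
    apply hx; simp [ff, h.1, h.2]

/-- uniqueness -/
theorem unique_of (C : ToricCore) (σ : Fin 48) (x u : Fin 4 → ℂ) (hx : ff x ≠ 0)
    (hu : ∀ l, u l = ∏ i, x i ^ dual σ l i)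
    (hσ : ∀ (τ : Fin 48) (v : Fin 4 → ℂ), hmap τ v = x → ∀ k, (∀ l, cone σ l ≠ cone τ k) →
      v k ≠ 0) (y : C.Pt) (hy : C.h y = x) : y = C.chart σ u := by
  obtain ⟨τ, v, rfl⟩ := C.exists_chart y
  rw [C.h_chart] at hy
  rw [C.chart_eq_iff]
  refine ⟨hσ τ v hy, fun l => ?_⟩
  rw [hu, chi_eq_prod, hy]
  intro k hk
  rcases cone_of_zero (by rw [hy]; exact hx) k hk with h | h | h <;> simp [h]

theorem caseA_h {x : Fin 4 → ℂ} (h0 : x 0 ≠ 0) :
    hmap 11 ![x 1 / x 0, x 2 / x 0, x 3 / x 0, x 0 ^ 2 / x 0] = x := by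
  funext i
  have e : x 0 ^ 2 / x 0 = x 0 := by field_simp
  fin_cases i <;>
    simp [hmap, chi, pair, ei, cone, ray, Fin.prod_univ_four, e, h0]

theorem caseB_h {x : Fin 4 → ℂ} (h1 : x 1 ≠ 0) (h3 : x 3 ≠ 0) :
    hmap 3 ![x 0 * x 1 / (x 1 ^ 2 * x 3), x 2 * x 3 / (x 1 ^ 2 * x 3),
      x 3 ^ 2 / (x 1 ^ 2 * x 3), x 1 ^ 3 * x 3 / (x 1 ^ 2 * x 3)] = x := by
  funext i
  have e0 : x 0 * x 1 / (x 1 ^ 2 * x 3) = x 0 / (x 1 * x 3) := by field_simp
  have e1 : x 2 * x 3 / (x 1 ^ 2 * x 3) = x 2 / x 1 ^ 2 := by field_simp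
  have e2 : x 3 ^ 2 / (x 1 ^ 2 * x 3) = x 3 / x 1 ^ 2 := by field_simp
  have e3 : x 1 ^ 3 * x 3 / (x 1 ^ 2 * x 3) = x 1 := by field_simp
  rw [e0, e1, e2, e3]
  fin_cases i <;>
    simp [hmap, chi, pair, ei, cone, ray, Fin.prod_univ_four]
  · field_simp
  · field_simp
  · field_simp

end Td

open Td

/-- T-d -/
theorem td (C : ToricCore) : TdStatement C := by
  have keyA : ∀ x, ff x ≠ 0 → x 0 ≠ 0 → ∀ y, C.h y = x →
      y = C.chart 11 ![x 1 / x 0, x 2 / x 0, x 3 / x 0, x 0 ^ 2 / x 0] := by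
    intro x hx h0
    apply unique_of C 11 x _ hx
    · intro l
      have e : x 0 ^ 2 / x 0 = x 0 := by field_simp
      fin_cases l <;> simp [dual, Fin.prod_univ_four, e] <;> field_simp
    · intro τ v hv k hk hvk
      have hf : ff (hmap τ v) ≠ 0 := by rw [hv]; exact hx
      rcases cone_of_zero hf k hvk with h | h | h
      · have := hmap_zero k 0 hvk (by rw [h]; decide)
        rw [hv] at this
        exact h0 this
      · exact hk 1 (by rw [h]; decide)
      · exact hk 2 (by rw [h]; decide)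
  have keyB : ∀ x, ff x ≠ 0 → x 1 ≠ 0 → x 3 ≠ 0 → ∀ y, C.h y = x →
      y = C.chart 3 ![x 0 * x 1 / (x 1 ^ 2 * x 3), x 2 * x 3 / (x 1 ^ 2 * x 3),
        x 3 ^ 2 / (x 1 ^ 2 * x 3), x 1 ^ 3 * x 3 / (x 1 ^ 2 * x 3)] := by
    intro x hx h1 h3
    apply unique_of C 3 x _ hx
    · intro l
      fin_cases l <;> simp [dual, Fin.prod_univ_four] <;> field_simp
    · intro τ v hv k hk hvk
      have hf : ff (hmap τ v) ≠ 0 := by rw [hv]; exact hx
      rcases cone_of_zero hf k hvk with h | h | h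
      · exact hk 0 (by rw [h]; decide)
      · exact hk 1 (by rw [h]; decide)
      · have := hmap_zero k 3 hvk (by rw [h]; decide)
        rw [hv] at this
        exact h3 this
  constructor
  · intro x hx
    obtain ⟨h1, h0 | h3⟩ := ff_ne hx
    · exact ⟨_, (C.h_chart _ _).trans (caseA_h h0), keyA x hx h0⟩
    · exact ⟨_, (C.h_chart _ _).trans (caseB_h h1 h3), keyB x hx h1 h3⟩
  · intro x hx
    obtain ⟨h1, h0 | h3⟩ := ff_ne hx
    · refine ⟨11, MvPolynomial.X 0, ![MvPolynomial.X 1, MvPolynomial.X 2, MvPolynomial.X 3,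
        MvPolynomial.X 0 ^ 2], by simpa using h0, ?_⟩
      intro x' _ hg
      have h0' : x' 0 ≠ 0 := by simpa using hg
      rw [C.h_chart]
      convert caseA_h h0' using 2
      funext k
      fin_cases k <;> simp
    · refine ⟨3, MvPolynomial.X 1 ^ 2 * MvPolynomial.X 3, ![MvPolynomial.X 0 * MvPolynomial.X 1,
        MvPolynomial.X 2 * MvPolynomial.X 3, MvPolynomial.X 3 ^ 2,
        MvPolynomial.X 1 ^ 3 * MvPolynomial.X 3], by simp [h1, h3], ?_⟩
      intro x' _ hg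
      have hg' : x' 1 ≠ 0 ∧ x' 3 ≠ 0 := by simpa using hg
      rw [C.h_chart]
      convert caseB_h hg'.1 hg'.2 using 2
      funext k
      fin_cases k <;> simp

end Toric

end HoloConj
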