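import Pool.Agent.Lib.MP_ed311f_ag.Toric.Map

/-!
# T-e: the divisors of the rays are irreducible and distinct
-/

open Topology

namespace HoloConj

namespace Toric

theorem te_cone_inj : ∀ (σ : Fin 48) (k l : Fin 4), cone σ k = cone σ l → k = l := by
  decide +kernel

theorem te_ray_mem : ∀ ρ : Fin 18, ∃ (σ : Fin 48) (k : Fin 4), cone σ k = ρ := by
  decide +kernel

theorem te_expo_inj : ∀ (σ : Fin 48) (j j' : Fin 4),
    (∀ k, pair (expo j - expo j') (ray (cone σ k)) = 0) → j = j' := by
  decide +kernel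

/-- the strict transform does not pass through the origins of the charts -/
theorem te_ftil_zero (σ : Fin 48) : ftil σ 0 ≠ 0 := by
  have h : ∀ j, chi σ (expo j - expo (jmin σ)) 0 = if j = jmin σ then 1 else 0 := by
    intro j
    by_cases hj : j = jmin σ
    · rw [if_pos hj, hj, sub_self, chi_zero]
    · rw [if_neg hj]
      have hne : ∃ k, pair (expo j - expo (jmin σ)) (ray (cone σ k)) ≠ 0 := by
        by_contra hc
        push Not at hc
        exact hj (te_expo_inj σ j (jmin σ) hc)
      obtain ⟨k, hk⟩ := hne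
      rw [chi, Finset.prod_eq_zero_iff]
      exact ⟨k, Finset.mem_univ k, by rw [Pi.zero_apply]; exact zero_zpow _ hk⟩
  rw [ftil, Finset.sum_congr rfl fun j _ => h j, Finset.sum_ite_eq' Finset.univ (jmin σ)]
  simp

/-- a line in affine space, as a map to polynomials in one variable -/
theorem te_line (p : MvPolynomial (Fin 4) ℂ) (u₁ u₂ : Fin 4 → ℂ) :
    ∃ P : Polynomial ℂ, ∀ t : ℂ,
      Polynomial.eval t P = MvPolynomial.eval (fun k => u₁ k + t * (u₂ k - u₁ k)) p := by
  refine ⟨MvPolynomial.aeval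
    (fun k => Polynomial.C (u₁ k) + Polynomial.X * Polynomial.C (u₂ k - u₁ k)) p, fun t => ?_⟩
  have h : (Polynomial.evalRingHom t).comp
      ((MvPolynomial.aeval (R := ℂ)
        (fun k => Polynomial.C (u₁ k) + Polynomial.X * Polynomial.C (u₂ k - u₁ k)) :
        MvPolynomial (Fin 4) ℂ →ₐ[ℂ] Polynomial ℂ) : MvPolynomial (Fin 4) ℂ →+* Polynomial ℂ) =
      MvPolynomial.eval (fun k => u₁ k + t * (u₂ k - u₁ k)) := by
    apply MvPolynomial.ringHom_ext
    · intro a
      simp
    · intro i
      simp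
  exact RingHom.congr_fun h p

theorem te_isIrred (C : ToricCore) (hb : TbStatement C) (ρ : Fin 18) :
    (C.toVar hb).IsIrred (C.Eray ρ) := by
  refine ⟨?_, ?_, ?_⟩
  · -- closed
    intro σ
    refine ⟨{p | (∃ k, cone σ k = ρ ∧ p = MvPolynomial.X k) ∨ ((∀ k, cone σ k ≠ ρ) ∧ p = 1)},
      fun u => ?_⟩
    have e := C.chart_mem_Eray σ u ρ
    constructor
    · intro h
      obtain ⟨k, hk, hk0⟩ := e.1 h
      rintro p (⟨k', hk', rfl⟩ | ⟨hn, _⟩)
      · rw [MvPolynomial.eval_X, te_cone_inj σ k' k (hk'.trans hk.symm)]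
        exact hk0
      · exact absurd hk (hn k)
    · intro h
      apply e.2
      by_cases hc : ∃ k, cone σ k = ρ
      · obtain ⟨k, hk⟩ := hc
        refine ⟨k, hk, ?_⟩
        have := h (MvPolynomial.X k) (Or.inl ⟨k, hk, rfl⟩)
        rwa [MvPolynomial.eval_X] at this
      · push Not at hc
        have := h 1 (Or.inr ⟨hc, rfl⟩)
        rw [map_one] at this
        exact absurd this one_ne_zero
  · -- nonempty
    obtain ⟨σ, k, hk⟩ := te_ray_mem ρ
    exact ⟨C.chart σ 0, (C.chart_mem_Eray σ 0 ρ).2 ⟨k, hk, rfl⟩⟩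
  · -- irreducible
    intro A B hA hB hAB
    obtain ⟨σ, k, hk⟩ := te_ray_mem ρ
    -- spreading from one chart to all
    have spread : ∀ D : Set (C.toVar hb).Pt, (C.toVar hb).IsZariskiClosed D →
        (∀ u : Fin 4 → ℂ, u k = 0 → C.chart σ u ∈ D) → C.Eray ρ ⊆ D := by
      intro D hD hDσ y hy
      obtain ⟨τ, v, rfl⟩ := C.exists_chart y
      obtain ⟨l, hl, hl0⟩ := (C.chart_mem_Eray τ v ρ).1 hy
      obtain ⟨S, hS⟩ := hD τ
      refine (hS v).2 fun q hq => ?_
      -- approximation
      set w : ℂ → Fin 4 → ℂ := fun ε i => if i = l then 0 else if v i = 0 then ε else v i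
        with hw
      have hwc : Continuous w := by
        refine continuous_pi fun i => ?_
        by_cases h1 : i = l
        · simp only [hw, h1, if_true]
          exact continuous_const
        · by_cases h2 : v i = 0
          · simp only [hw, h1, h2, if_true, if_false]
            exact continuous_id
          · simp only [hw, h1, h2, if_false]
            exact continuous_const
      have hw0 : w 0 = v := by
        funext i
        by_cases h1 : i = l
        · subst h1
          simp [hw, hl0]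
        · by_cases h2 : v i = 0
          · simp [hw, h2]
          · simp [hw, h1, h2]
      have hvan : ∀ ε : ℂ, ε ≠ 0 → MvPolynomial.eval (w ε) q = 0 := by
        intro ε hε
        have hne : ∀ i, i ≠ l → w ε i ≠ 0 := by
          intro i hi
          by_cases h2 : v i = 0
          · simp only [hw, hi, h2, if_true, if_false]
            exact hε
          · simp only [hw, hi, h2, if_false]
            exact h2
        have hDom : w ε ∈ Dom τ σ := by
          intro i hi
          refine hne i fun h => ?_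
          subst h
          exact hi k (hk.trans hl.symm)
        have heq : C.chart τ (w ε) = C.chart σ (fun m => chi τ (dual σ m) (w ε)) :=
          (C.chart_eq_iff τ σ _ _).2 ⟨hDom, fun m => rfl⟩
        have hmem : C.chart τ (w ε) ∈ C.Eray ρ :=
          (C.chart_mem_Eray τ _ ρ).2 ⟨l, hl, by simp [hw]⟩
        rw [heq] at hmem
        obtain ⟨k', hk', hk0⟩ := (C.chart_mem_Eray σ _ ρ).1 hmem
        have hkk : k' = k := te_cone_inj σ k' k (hk'.trans hk.symm)
        subst hkk
        have h2 := hDσ (fun m => chi τ (dual σ m) (w ε)) hk0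
        rw [← heq] at h2
        exact (hS (w ε)).1 h2 q hq
      have hcont : Continuous fun ε : ℂ => MvPolynomial.eval (w ε) q :=
        (MvPolynomial.continuous_eval q).comp hwc
      have hclosed : IsClosed {ε : ℂ | MvPolynomial.eval (w ε) q = 0} :=
        isClosed_eq hcont continuous_const
      have hdense : Dense {ε : ℂ | ε ≠ 0} := dense_compl_singleton 0
      have hall : ∀ ε : ℂ, ε ∈ {ε : ℂ | MvPolynomial.eval (w ε) q = 0} := by
        have : closure {ε : ℂ | ε ≠ 0} ⊆ {ε : ℂ | MvPolynomial.eval (w ε) q = 0} :=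
          closure_minimal (fun ε hε => hvan ε hε) hclosed
        intro ε
        exact this (hdense ε)
      have := hall 0
      rw [Set.mem_ofPred_eq, hw0] at this
      exact this
    -- in the chart `σ`
    obtain ⟨SA, hSA⟩ := hA σ
    obtain ⟨SB, hSB⟩ := hB σ
    by_cases h1 : ∀ u : Fin 4 → ℂ, u k = 0 → C.chart σ u ∈ A
    · exact Or.inl (spread A hA h1)
    by_cases h2 : ∀ u : Fin 4 → ℂ, u k = 0 → C.chart σ u ∈ B
    · exact Or.inr (spread B hB h2)
    exfalso
    push Not at h1 h2
    obtain ⟨u₁, hu₁, hn₁⟩ := h1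
    obtain ⟨u₂, hu₂, hn₂⟩ := h2
    have e1 : ∃ p ∈ SA, MvPolynomial.eval u₁ p ≠ 0 := by
      by_contra hc
      push Not at hc
      exact hn₁ ((hSA u₁).2 hc)
    have e2 : ∃ q ∈ SB, MvPolynomial.eval u₂ q ≠ 0 := by
      by_contra hc
      push Not at hc
      exact hn₂ ((hSB u₂).2 hc)
    obtain ⟨p, hp, hp1⟩ := e1
    obtain ⟨q, hq, hq2⟩ := e2
    obtain ⟨P, hP⟩ := te_line p u₁ u₂
    obtain ⟨Q, hQ⟩ := te_line q u₁ u₂
    have hPQ : P * Q = 0 := by
      apply Polynomial.funext
      intro t
      rw [Polynomial.eval_mul, Polynomial.eval_zero, hP, hQ]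
      have hk0 : (fun i => u₁ i + t * (u₂ i - u₁ i)) k = 0 := by
        simp [hu₁, hu₂]
      have hmem : C.chart σ (fun i => u₁ i + t * (u₂ i - u₁ i)) ∈ C.Eray ρ :=
        (C.chart_mem_Eray σ _ ρ).2 ⟨k, hk, hk0⟩
      rcases hAB hmem with h | h
      · rw [(hSA _).1 h p hp, zero_mul]
      · rw [(hSB _).1 h q hq, mul_zero]
    rcases mul_eq_zero.1 hPQ with h | h
    · apply hp1
      have := hP 0
      rw [h, Polynomial.eval_zero] at this
      simpa using this.symm
    · apply hq2
      have := hQ 1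
      rw [h, Polynomial.eval_zero] at this
      simpa using this.symm

theorem te_eray_ne (C : ToricCore) {ρ ρ' : Fin 18} (h : ρ ≠ ρ') : C.Eray ρ ≠ C.Eray ρ' := by
  intro he
  obtain ⟨σ, k, hk⟩ := te_ray_mem ρ
  have h1 : C.chart σ (fun i => if i = k then 0 else 1) ∈ C.Eray ρ :=
    (C.chart_mem_Eray σ _ ρ).2 ⟨k, hk, if_pos rfl⟩
  rw [he] at h1
  obtain ⟨k', hk', hk0⟩ := (C.chart_mem_Eray σ _ ρ').1 h1
  by_cases hkk : k' = k
  · subst hkk
    exact h (hk.symm.trans hk')
  · simp [hkk] at hk0

theorem te_eray_ne_estr (C : ToricCore) (ρ : Fin 18) : C.Eray ρ ≠ C.Estr := by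
  intro he
  obtain ⟨σ, k, hk⟩ := te_ray_mem ρ
  have h1 : C.chart σ 0 ∈ C.Eray ρ := (C.chart_mem_Eray σ _ ρ).2 ⟨k, hk, rfl⟩
  rw [he] at h1
  exact te_ftil_zero σ ((C.chart_mem_Estr σ 0).1 h1)

/-- **T-e.** -/
theorem te (C : ToricCore) (hb : TbStatement C) : TeStatement C hb := by
  refine ⟨te_isIrred C hb, ?_, ?_⟩
  · intro a b hab
    cases a with
    | none =>
      cases b with
      | none => rfl
      | some ρ => exact absurd hab.symm (te_eray_ne_estr C ρ.1)
    | some ρ =>
      cases b with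
      | none => exact absurd hab (te_eray_ne_estr C ρ.1)
      | some ρ' =>
        by_cases h : ρ.1 = ρ'.1
        · rw [Subtype.ext h]
        · exact absurd hab (te_eray_ne C h)
  · intro y
    obtain ⟨σ, u, rfl⟩ := C.exists_chart y
    rw [C.h_chart, ff_hmap_eq, mul_eq_zero, Finset.prod_eq_zero_iff]
    constructor
    · rintro (⟨k, _, hk⟩ | h)
      · have h1 : u k = 0 ∧ rN (cone σ k) ≠ 0 := by
          by_cases hr : rN (cone σ k) = 0
          · rw [hr, pow_zero] at hk
            exact absurd hk one_ne_zero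
          · exact ⟨pow_eq_zero_iff hr |>.1 hk, hr⟩
        exact ⟨some ⟨cone σ k, h1.2⟩, (C.chart_mem_Eray σ u _).2 ⟨k, rfl, h1.1⟩⟩
      · exact ⟨none, (C.chart_mem_Estr σ u).2 h⟩
    · rintro ⟨j, hj⟩
      cases j with
      | none => exact Or.inr ((C.chart_mem_Estr σ u).1 hj)
      | some ρ =>
        obtain ⟨k, hk, hk0⟩ := (C.chart_mem_Eray σ u _).1 hj
        refine Or.inl ⟨k, Finset.mem_univ k, ?_⟩
        rw [hk0]
        exact zero_pow (by rw [hk]; exact ρ.2)

end Toric

end HoloConj
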