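import Pool.Agent.Lib.MP_ed311f_ag.Toric.Map

/-!
# The strict transform is irreducible (piece T-f)
-/

open Topology

namespace HoloConj

namespace Toric

/-! ### The strict transform in chart 3 -/

theorem jmin_three : jmin 3 = 3 := by
  have := jmin_spec 3
  revert this
  generalize jmin 3 = j
  revert j
  decide +kernel

theorem ftil_three (u : Fin 4 → ℂ) :
    ftil 3 u = 1 + u 2 + u 1 ^ 2 * u 3 + u 0 ^ 2 * u 2 * u 3 := by
  have e : ∀ j k : Fin 4, pair (expo j - expo 3) (ray (cone 3 k)) =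
      (![![2, 0, 1, 1], ![0, 2, 0, 1], ![0, 0, 1, 0], ![0, 0, 0, 0]] :
        Fin 4 → Fin 4 → ℤ) j k := by decide +kernel
  rw [ftil, jmin_three]
  simp only [chi, e, Fin.sum_univ_four, Fin.prod_univ_four]
  simp
  ring

/-! ### Torus points -/

theorem mem_Dom_of_ne {σ τ : Fin 48} {u : Fin 4 → ℂ} (hu : ∀ k, u k ≠ 0) : u ∈ Dom σ τ :=
  fun k _ => hu k

theorem chi_ne_of_ne (σ : Fin 48) (m : Fin 4 → ℤ) {u : Fin 4 → ℂ} (hu : ∀ k, u k ≠ 0) :
    chi σ m u ≠ 0 := chi_ne_zero σ m u fun k hk => absurd hk (hu k)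

/-- the denominator -/
def RR (u : Fin 4 → ℂ) : ℂ := u 1 ^ 2 + u 0 ^ 2 * u 2

/-- the points of the strict transform in chart 3 which lie on the graph -/
def S3 : Set (Fin 4 → ℂ) := {v | ftil 3 v = 0 ∧ RR v ≠ 0}

/-- torus points of the strict transform are limits of points of the graph -/
theorem torus_mem_closure (v : Fin 4 → ℂ) (hv : ∀ k, v k ≠ 0) (hF : ftil 3 v = 0) :
    v ∈ closure S3 := by
  by_cases hR : RR v ≠ 0
  · exact subset_closure ⟨hF, hR⟩
  push Not at hR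
  have hR' : v 1 ^ 2 + v 0 ^ 2 * v 2 = 0 := hR
  have hv2 : v 2 = -1 := by
    rw [ftil_three] at hF
    linear_combination hF - v 3 * hR'
  have h10 : v 1 ^ 2 = v 0 ^ 2 := by
    rw [hv2] at hR'
    linear_combination hR'
  have h3 := hv 3
  have h1 := hv 1
  set d : ℂ := (-(v 3)⁻¹ - v 0 ^ 2) / (2 * v 1) with hd
  have hd' : 2 * v 1 * d + v 0 ^ 2 = -(v 3)⁻¹ := by
    rw [hd]
    field_simp
    ring
  let Q : ℂ → ℂ := fun t => 2 * v 1 * d + d ^ 2 * t + v 0 ^ 2
  let γ : ℂ → Fin 4 → ℂ := fun t => ![v 0, v 1 + d * t, -1 + t, -(Q t)⁻¹]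
  have hQ0 : Q 0 = -(v 3)⁻¹ := by
    simp only [Q]
    rw [← hd']
    ring
  have hQ0' : Q 0 ≠ 0 := by
    rw [hQ0]
    exact neg_ne_zero.2 (inv_ne_zero h3)
  have hQc : Continuous Q := by
    simp only [Q]
    fun_prop
  have hγ0 : γ 0 = v := by
    funext k
    fin_cases k
    · simp [γ]
    · simp [γ]
    · simp [γ, hv2]
    · simp [γ, hQ0]
  have hγc : ContinuousAt γ 0 := by
    rw [continuousAt_pi]
    intro k
    fin_cases k
    · exact continuousAt_const
    · change ContinuousAt (fun t => v 1 + d * t) 0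
      fun_prop
    · change ContinuousAt (fun t : ℂ => -1 + t) 0
      fun_prop
    · exact (hQc.continuousAt.inv₀ hQ0').neg
  have ht : Filter.Tendsto γ (𝓝[≠] 0) (𝓝 v) := by
    have := hγc.tendsto
    rw [hγ0] at this
    exact this.mono_left nhdsWithin_le_nhds
  refine mem_closure_of_tendsto ht ?_
  have hev : ∀ᶠ t in 𝓝[≠] (0 : ℂ), Q t ≠ 0 :=
    nhdsWithin_le_nhds (hQc.continuousAt.eventually_ne hQ0')
  filter_upwards [hev, self_mem_nhdsWithin] with t hQt ht0
  have ht0' : t ≠ 0 := ht0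
  have hRt : RR (γ t) = t * Q t := by
    change (v 1 + d * t) ^ 2 + v 0 ^ 2 * (-1 + t) = t * (2 * v 1 * d + d ^ 2 * t + v 0 ^ 2)
    linear_combination h10
  refine ⟨?_, ?_⟩
  · have e : ftil 3 (γ t) = 1 + (γ t) 2 + RR (γ t) * (γ t) 3 := by
      rw [ftil_three, RR]
      ring
    rw [e, hRt]
    change 1 + (-1 + t) + t * Q t * (-(Q t)⁻¹) = 0
    field_simp
    ring
  · rw [hRt]
    exact mul_ne_zero ht0' hQt

/-! ### Clearing denominators -/

/-- the denominator as a polynomial in three variables -/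
noncomputable def RP : MvPolynomial (Fin 3) ℂ :=
  MvPolynomial.X 1 ^ 2 + MvPolynomial.X 0 ^ 2 * MvPolynomial.X 2

theorem eval_RP (v : Fin 4 → ℂ) : MvPolynomial.eval (fun i : Fin 3 => v i.castSucc) RP = RR v := by
  simp [RP, RR]

theorem clear (p : MvPolynomial (Fin 4) ℂ) : ∃ (N : ℕ) (P : MvPolynomial (Fin 3) ℂ),
    ∀ v : Fin 4 → ℂ, ftil 3 v = 0 →
      MvPolynomial.eval (fun i : Fin 3 => v i.castSucc) P = RR v ^ N * MvPolynomial.eval v p := by
  induction p using MvPolynomial.induction_on with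
  | C a => exact ⟨0, MvPolynomial.C a, fun v _ => by simp⟩
  | add p q hp hq =>
    obtain ⟨N, P, hP⟩ := hp
    obtain ⟨M, Q, hQ⟩ := hq
    refine ⟨N + M, RP ^ M * P + RP ^ N * Q, fun v hv => ?_⟩
    simp only [map_add, map_mul, map_pow, eval_RP, hP v hv, hQ v hv]
    ring
  | mul_X p i hp =>
    obtain ⟨N, P, hP⟩ := hp
    refine Fin.lastCases ?_ (fun i => ?_) i
    · refine ⟨N + 1, -(1 + MvPolynomial.X 2) * P, fun v hv => ?_⟩
      simp only [map_add, map_mul, map_neg, map_one, MvPolynomial.eval_X, hP v hv]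
      rw [ftil_three] at hv
      have e : (Fin.last 3) = (3 : Fin 4) := rfl
      have e2 : (Fin.castSucc (2 : Fin 3)) = (2 : Fin 4) := rfl
      rw [e, e2, pow_succ]
      have : RR v * v 3 = -(1 + v 2) := by
        rw [RR]
        linear_combination hv
      linear_combination (-(RR v) ^ N * MvPolynomial.eval v p) * this
    · refine ⟨N, P * MvPolynomial.X i, fun v hv => ?_⟩
      simp only [map_mul, MvPolynomial.eval_X, hP v hv]
      ring

/-- the point of the graph over a point of affine space -/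
noncomputable def gpt (w : Fin 3 → ℂ) : Fin 4 → ℂ :=
  Fin.snoc w (-(1 + w 2) / (w 1 ^ 2 + w 0 ^ 2 * w 2))

theorem gpt_castSucc (w : Fin 3 → ℂ) (i : Fin 3) : gpt w i.castSucc = w i := by
  simp [gpt]

theorem RR_gpt (w : Fin 3 → ℂ) : RR (gpt w) = MvPolynomial.eval w RP := by
  rw [← eval_RP]
  congr 1
  congr 1
  funext i
  exact gpt_castSucc w i

theorem gpt_mem (w : Fin 3 → ℂ) (hw : MvPolynomial.eval w RP ≠ 0) : gpt w ∈ S3 := by
  have h0 : gpt w 0 = w 0 := gpt_castSucc w 0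
  have h1 : gpt w 1 = w 1 := gpt_castSucc w 1
  have h2 : gpt w 2 = w 2 := gpt_castSucc w 2
  have h3 : gpt w 3 = -(1 + w 2) / (w 1 ^ 2 + w 0 ^ 2 * w 2) := by
    change (Fin.snoc w (-(1 + w 2) / (w 1 ^ 2 + w 0 ^ 2 * w 2)) : Fin 4 → ℂ) (Fin.last 3) = _
    rw [Fin.snoc_last]
  have hw' : w 1 ^ 2 + w 0 ^ 2 * w 2 ≠ 0 := by
    simpa [RP] using hw
  refine ⟨?_, ?_⟩
  · rw [ftil_three, h0, h1, h2, h3]
    have e : (w 1 ^ 2 + w 0 ^ 2 * w 2) * (-(1 + w 2) / (w 1 ^ 2 + w 0 ^ 2 * w 2)) =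
        -(1 + w 2) := mul_div_cancel₀ _ hw'
    linear_combination e
  · rw [RR_gpt]
    exact hw

theorem S3_irred (SB SC : Set (MvPolynomial (Fin 4) ℂ))
    (h : ∀ v ∈ S3, (∀ p ∈ SB, MvPolynomial.eval v p = 0) ∨ (∀ q ∈ SC, MvPolynomial.eval v q = 0)) :
    (∀ v ∈ S3, ∀ p ∈ SB, MvPolynomial.eval v p = 0) ∨
      (∀ v ∈ S3, ∀ q ∈ SC, MvPolynomial.eval v q = 0) := by
  by_contra hcon
  push Not at hcon
  obtain ⟨⟨v, hv, p, hp, hvp⟩, ⟨v', hv', q, hq, hvq⟩⟩ := hcon
  obtain ⟨N, P, hP⟩ := clear p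
  obtain ⟨M, Q, hQ⟩ := clear q
  have hP0 : P ≠ 0 := by
    rintro rfl
    have := hP v hv.1
    rw [map_zero] at this
    exact mul_ne_zero (pow_ne_zero _ hv.2) hvp this.symm
  have hQ0 : Q ≠ 0 := by
    rintro rfl
    have := hQ v' hv'.1
    rw [map_zero] at this
    exact mul_ne_zero (pow_ne_zero _ hv'.2) hvq this.symm
  have hR0 : RP ≠ 0 := by
    intro h0
    have := eval_RP v
    rw [h0, map_zero] at this
    exact hv.2 this.symm
  refine mul_ne_zero (mul_ne_zero hP0 hQ0) hR0 (MvPolynomial.funext fun w => ?_)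
  rw [map_zero, map_mul, map_mul]
  by_cases hw : MvPolynomial.eval w RP = 0
  · rw [hw, mul_zero]
  · have hm := gpt_mem w hw
    have e : (fun i : Fin 3 => gpt w i.castSucc) = w := funext fun i => gpt_castSucc w i
    have h1 := hP _ hm.1
    have h2 := hQ _ hm.1
    rw [e] at h1 h2
    rw [h1, h2]
    rcases h _ hm with h3 | h3
    · rw [h3 p hp]
      ring
    · rw [h3 q hq]
      ring

/-! ### Density of the torus in the charts -/

theorem expo_sub_eq : ∀ (σ : Fin 48) (i j : Fin 4),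
    (∀ k, pair (expo j - expo i) (ray (cone σ k)) = 0) → j = i := by
  decide +kernel

theorem eval_zero_Fpoly (σ : Fin 48) : MvPolynomial.eval 0 (Fpoly σ) = 1 := by
  rw [eval_Fpoly, ftil]
  rw [Finset.sum_eq_single (jmin σ)]
  · rw [sub_self, chi_zero]
  · intro j _ hj
    have : ∃ k, pair (expo j - expo (jmin σ)) (ray (cone σ k)) ≠ 0 := by
      by_contra hc
      push Not at hc
      exact hj (expo_sub_eq σ _ _ hc)
    obtain ⟨k, hk⟩ := this
    rw [chi]
    refine Finset.prod_eq_zero (Finset.mem_univ k) ?_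
    rw [Pi.zero_apply, zero_zpow _ hk]
  · intro h
    exact absurd (Finset.mem_univ _) h

theorem vanish_of_torus (σ : Fin 48) (p : MvPolynomial (Fin 4) ℂ)
    (hp : ∀ u, (∀ k, u k ≠ 0) → ftil σ u = 0 → MvPolynomial.eval u p = 0) :
    ∀ u, ftil σ u = 0 → MvPolynomial.eval u p = 0 := by
  intro u hu
  have hrel : ∀ k, IsRelPrime (Fpoly σ) (MvPolynomial.X k : MvPolynomial (Fin 4) ℂ) := by
    intro k
    have hX : Prime (MvPolynomial.X k : MvPolynomial (Fin 4) ℂ) := MvPolynomial.X_prime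
    refine (hX.irreducible.isRelPrime_iff_not_dvd.2 ?_).symm
    rintro ⟨r, hr⟩
    have := eval_zero_Fpoly σ
    rw [hr, map_mul, MvPolynomial.eval_X] at this
    simp at this
  have hrel' : IsRelPrime (Fpoly σ) (∏ k, (MvPolynomial.X k : MvPolynomial (Fin 4) ℂ)) :=
    IsRelPrime.prod_right fun k _ => hrel k
  set q : MvPolynomial (Fin 4) ℂ := p * ∏ k, MvPolynomial.X k with hq
  have hmem : q ∈ MvPolynomial.vanishingIdeal ℂ (MvPolynomial.zeroLocus ℂ
      (Ideal.span {Fpoly σ} : Ideal (MvPolynomial (Fin 4) ℂ))) := by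
    rw [MvPolynomial.mem_vanishingIdeal_iff]
    intro v hv
    have hv' : ftil σ v = 0 := by
      have := (MvPolynomial.mem_zeroLocus_iff.1 hv) (Fpoly σ)
        (Ideal.subset_span (Set.mem_singleton _))
      rw [← eval_Fpoly]
      simpa using this
    have : MvPolynomial.eval v q = 0 := by
      rw [hq, map_mul, map_prod]
      by_cases hk : ∀ k, v k ≠ 0
      · rw [hp v hk hv', zero_mul]
      · push Not at hk
        obtain ⟨k, hk⟩ := hk
        rw [Finset.prod_eq_zero (Finset.mem_univ k), mul_zero]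
        rw [MvPolynomial.eval_X, hk]
    simpa using this
  rw [MvPolynomial.vanishingIdeal_zeroLocus_eq_radical] at hmem
  obtain ⟨n, hn⟩ := hmem
  rw [Ideal.mem_span_singleton, hq, mul_pow] at hn
  have h1 : Fpoly σ ∣ p ^ n := (hrel'.pow_right).dvd_of_dvd_mul_right hn
  obtain ⟨r, hr⟩ := h1
  have h2 : MvPolynomial.eval u p ^ n = 0 := by
    rw [← map_pow, hr, map_mul, eval_Fpoly, hu, zero_mul]
  exact pow_eq_zero_iff (n := n) (by
    rintro rfl
    simp at h2) |>.1 h2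

/-! ### Zariski closed sets are closed -/

theorem isClosed_of_zariski {d : ℕ} (Y : ChartVariety d) {B : Set Y.Pt} (hB : Y.IsZariskiClosed B) :
    IsClosed B := by
  rw [← isOpen_compl_iff, isOpen_iff_mem_nhds]
  intro y hy
  obtain ⟨i, u, rfl⟩ := Y.exists_chart y
  obtain ⟨S, hS⟩ := hB i
  have : ¬ ∀ p ∈ S, MvPolynomial.eval u p = 0 := fun h => hy ((hS u).2 h)
  push Not at this
  obtain ⟨p, hp, hup⟩ := this
  have ho : IsOpen {v : Fin d → ℂ | MvPolynomial.eval v p ≠ 0} :=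
    isOpen_ne_fun (MvPolynomial.continuous_eval p) continuous_const
  refine Filter.mem_of_superset (((Y.isOpenEmbedding_chart i).isOpenMap _ ho).mem_nhds
    ⟨u, hup, rfl⟩) ?_
  rintro _ ⟨v, hv, rfl⟩ hvB
  exact hv ((hS v).1 hvB p hp)

/-! ### The result -/

theorem Estr_subset_of_S3 (C : ToricCore) (hb : TbStatement C) {B : Set C.Pt}
    (hB : (C.toVar hb).IsZariskiClosed B) (h : ∀ v ∈ S3, C.chart 3 v ∈ B) : C.Estr ⊆ B := by
  have hcl : IsClosed B := isClosed_of_zariski (C.toVar hb) hB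
  have h3 : ∀ v, (∀ k, v k ≠ 0) → ftil 3 v = 0 → C.chart 3 v ∈ B := by
    intro v hv hF
    have h1 := torus_mem_closure v hv hF
    have h2 : C.chart 3 v ∈ closure (C.chart 3 '' S3) :=
      image_closure_subset_closure_image (C.isOpenEmbedding_chart 3).continuous ⟨v, h1, rfl⟩
    have h4 : closure (C.chart 3 '' S3) ⊆ B := by
      refine closure_minimal ?_ hcl
      rintro _ ⟨w, hw, rfl⟩
      exact h w hw
    exact h4 h2
  rintro y ⟨σ, u, rfl, hu⟩
  obtain ⟨S, hS⟩ := hB σ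
  refine (hS u).2 fun p hp => ?_
  refine vanish_of_torus σ p (fun v hv hF => ?_) u hu
  have hD : v ∈ Dom σ 3 := mem_Dom_of_ne hv
  set w : Fin 4 → ℂ := fun l => chi σ (dual 3 l) v with hw
  have e : C.chart σ v = C.chart 3 w := (C.chart_eq_iff _ _ _ _).2 ⟨hD, fun l => rfl⟩
  have hw0 : ∀ k, w k ≠ 0 := fun k => chi_ne_of_ne σ _ hv
  have hwF : ftil 3 w = 0 := (ftil_trans hD fun l => rfl).2 hF
  have hm : C.chart σ v ∈ B := e ▸ h3 w hw0 hwF
  exact (hS v).1 hm p hp

theorem tf (C : ToricCore) (hb : TbStatement C) : TfStatement C hb := by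
  refine ⟨?_, ?_, ?_⟩
  · intro σ
    refine ⟨{Fpoly σ}, fun u => ?_⟩
    have h1 : (C.toVar hb).chart σ u ∈ C.Estr ↔ ftil σ u = 0 := C.chart_mem_Estr σ u
    refine h1.trans ?_
    rw [← eval_Fpoly]
    simp
  · refine ⟨C.chart 3 ![0, 0, -1, 0], 3, _, rfl, ?_⟩
    rw [ftil_three]
    simp
  · intro A B hA hB hAB
    obtain ⟨SA, hSA⟩ := hA (3 : Fin 48)
    obtain ⟨SB, hSB⟩ := hB (3 : Fin 48)
    have hkey := S3_irred SA SB (fun v hv => ?_)
    · rcases hkey with hk | hk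
      · exact Or.inl (Estr_subset_of_S3 C hb hA fun v hv => (hSA v).2 (hk v hv))
      · exact Or.inr (Estr_subset_of_S3 C hb hB fun v hv => (hSB v).2 (hk v hv))
    · have : C.chart 3 v ∈ C.Estr := ⟨3, v, rfl, hv.1⟩
      rcases hAB this with h | h
      · exact Or.inl ((hSA v).1 h)
      · exact Or.inr ((hSB v).1 h)

end Toric

end HoloConj

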