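import Pool.Agent.Lib.MP_ed311f_ag.Toric.Map

/-!
# T-g: local normal crossings form of `f ∘ h` and of the Jacobian of `h`
-/

open Topology

namespace HoloConj

namespace Toric

open MvPolynomial

/-! ### Derivatives of monomials -/

theorem X_mul_pderiv_prod (n : Fin 4 → ℕ) (l : Fin 4) :
    (X l : MvPolynomial (Fin 4) ℂ) * pderiv l (∏ k, X k ^ n k) = C (n l : ℂ) * ∏ k, X k ^ n k := by
  have h : (∏ k, (X k : MvPolynomial (Fin 4) ℂ) ^ n k) =
      monomial (Finsupp.equivFunOnFinite.symm n) 1 := by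
    rw [monomial_eq, C_1, one_mul, Finsupp.prod_fintype _ _ (fun i => pow_zero _)]
    rfl
  rw [h, X_mul_pderiv_monomial]
  rw [nsmul_eq_mul]
  have : (Finsupp.equivFunOnFinite.symm n) l = n l := rfl
  rw [this, map_natCast]

theorem X_mul_pderiv_monoPoly (σ : Fin 48) (m : Fin 4 → ℤ) (l : Fin 4)
    (h : 0 ≤ pair m (ray (cone σ l))) :
    (X l : MvPolynomial (Fin 4) ℂ) * pderiv l (monoPoly σ m) =
      C ((pair m (ray (cone σ l)) : ℤ) : ℂ) * monoPoly σ m := by
  rw [monoPoly, X_mul_pderiv_prod]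
  congr 2
  have := Int.toNat_of_nonneg h
  rw [← Int.cast_natCast, this]

/-! ### The Jacobian of `h` -/

theorem pair_ei (i : Fin 4) (v : Fin 4 → ℤ) : pair (ei i) v = v i := by
  fin_cases i <;> simp [pair, ei]

theorem ray_nonneg : ∀ (ρ : Fin 18) (i : Fin 4), 0 ≤ ray ρ i := by decide +kernel

theorem rnu_pos : ∀ ρ : Fin 18, 1 ≤ rnu ρ := by decide +kernel

theorem rnu_of_rN : ∀ ρ : Fin 18, rN ρ = 0 → rnu ρ = 1 := by decide +kernel

theorem cone_inj : ∀ (σ : Fin 48) (k l : Fin 4), cone σ k = cone σ l → k = l := by decide +kernel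

/-- the matrix of the rays of the cone -/
noncomputable def VV (σ : Fin 48) : Matrix (Fin 4) (Fin 4) ℂ :=
  Matrix.of fun k l => ((ray (cone σ l) k : ℤ) : ℂ)

theorem det_VV (σ : Fin 48) : (VV σ).det ≠ 0 := by
  have h : (Matrix.of fun k i => ((dual σ k i : ℤ) : ℂ)) * VV σ = 1 := by
    ext k l
    rw [Matrix.mul_apply, Matrix.one_apply]
    have := dual_ray σ k l
    rw [pair_eq_sum] at this
    have h2 : ((∑ i, dual σ k i * ray (cone σ l) i : ℤ) : ℂ) =
        ((if k = l then 1 else 0 : ℤ) : ℂ) := by rw [this]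
    rw [Int.cast_sum] at h2
    simp only [Matrix.of_apply, VV]
    rw [show (∑ x, ((dual σ k x : ℤ) : ℂ) * ((ray (cone σ l) x : ℤ) : ℂ)) =
      ∑ i, ((dual σ k i * ray (cone σ l) i : ℤ) : ℂ) from
      Finset.sum_congr rfl fun x _ => by rw [Int.cast_mul], h2]
    split_ifs <;> simp
  intro h0
  have h3 := congrArg Matrix.det h
  rw [Matrix.det_mul, h0, mul_zero, Matrix.det_one] at h3
  exact zero_ne_one h3

theorem prod_Hpoly (σ : Fin 48) : ∏ k, Hpoly σ k =
    (∏ l, (X l : MvPolynomial (Fin 4) ℂ)) * ∏ l, X l ^ (rnu (cone σ l) - 1) := by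
  have h1 : ∏ k, Hpoly σ k = ∏ l, (X l : MvPolynomial (Fin 4) ℂ) ^ rnu (cone σ l) := by
    simp only [Hpoly, monoPoly]
    rw [Finset.prod_comm]
    refine Finset.prod_congr rfl fun l _ => ?_
    rw [Finset.prod_pow_eq_pow_sum]
    congr 1
    have h2 := rnu_eq (cone σ l)
    have h3 : ((∑ k, (pair (ei k) (ray (cone σ l))).toNat : ℕ) : ℤ) = rnu (cone σ l) := by
      rw [h2, Nat.cast_sum, Fin.sum_univ_four]
      simp only [pair_ei]
      rw [Int.toNat_of_nonneg (ray_nonneg _ _), Int.toNat_of_nonneg (ray_nonneg _ _),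
        Int.toNat_of_nonneg (ray_nonneg _ _), Int.toNat_of_nonneg (ray_nonneg _ _)]
    exact_mod_cast h3
  rw [h1, ← Finset.prod_mul_distrib]
  refine Finset.prod_congr rfl fun l _ => ?_
  have := rnu_pos (cone σ l)
  rw [← pow_succ', Nat.sub_add_cancel this]

/-- the Jacobian determinant of `h` in the chart `σ` -/
theorem jac_h (σ : Fin 48) :
    (Matrix.of fun k l => pderiv l (Hpoly σ k)).det =
      C (VV σ).det * ∏ l, (X l : MvPolynomial (Fin 4) ℂ) ^ (rnu (cone σ l) - 1) := by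
  have h1 : (Matrix.of fun k l => pderiv l (Hpoly σ k)) * Matrix.diagonal (fun l => X l) =
      Matrix.diagonal (fun k => Hpoly σ k) * (VV σ).map C := by
    ext1 k l
    rw [Matrix.mul_diagonal, Matrix.diagonal_mul, Matrix.of_apply, Matrix.map_apply]
    have := X_mul_pderiv_monoPoly σ (ei k) l (pair_ei_nonneg σ k l)
    rw [mul_comm, Hpoly, this, VV, Matrix.of_apply, pair_ei, mul_comm]
  have h2 := congrArg Matrix.det h1
  rw [Matrix.det_mul, Matrix.det_mul, Matrix.det_diagonal, Matrix.det_diagonal, prod_Hpoly,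
    ← RingHom.mapMatrix_apply, ← RingHom.map_det] at h2
  have h3 : (∏ l, (X l : MvPolynomial (Fin 4) ℂ)) ≠ 0 :=
    Finset.prod_ne_zero_iff.2 fun l _ => X_ne_zero l
  refine mul_right_cancel₀ h3 ?_
  rw [h2]
  ring

theorem eval_jac_h (σ : Fin 48) (u : Fin 4 → ℂ) :
    (Matrix.of fun k l => eval u (pderiv l (Hpoly σ k))).det =
      (VV σ).det * ∏ l, u l ^ (rnu (cone σ l) - 1) := by
  have h := congrArg (eval u) (jac_h σ)
  rw [RingHom.map_det, map_mul, eval_C, map_prod] at h
  simp only [map_pow, eval_X] at h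
  rw [← h]
  rfl

/-! ### Smoothness of the strict transform -/

theorem exists_grad (σ : Fin 48) (u : Fin 4 → ℂ) (h0 : ftil σ u = 0) :
    ∃ k, u k ≠ 0 ∧ eval u (pderiv k (Fpoly σ)) ≠ 0 := by
  by_contra hc
  push Not at hc
  set χ : Fin 4 → ℂ := fun j => chi σ (expo j - expo (jmin σ)) u with hχ
  have h1 : ∀ k, ∑ j, ((pair (expo j - expo (jmin σ)) (ray (cone σ k)) : ℤ) : ℂ) * χ j = 0 := by
    intro k
    have h2 : u k * eval u (pderiv k (Fpoly σ)) = 0 := by
      by_cases hk : u k = 0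
      · rw [hk, zero_mul]
      · rw [hc k hk, mul_zero]
    have h3 : (X k : MvPolynomial (Fin 4) ℂ) * pderiv k (Fpoly σ) =
        ∑ j, C ((pair (expo j - expo (jmin σ)) (ray (cone σ k)) : ℤ) : ℂ) *
          monoPoly σ (expo j - expo (jmin σ)) := by
      rw [Fpoly, map_sum, Finset.mul_sum]
      exact Finset.sum_congr rfl fun j _ =>
        X_mul_pderiv_monoPoly σ _ k (pair_expo_sub_nonneg σ j k)
    have h4 := congrArg (eval u) h3
    rw [map_mul, eval_X, h2, map_sum] at h4
    rw [← h4.symm]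
    refine Finset.sum_congr rfl fun j _ => ?_
    rw [map_mul, eval_C, eval_monoPoly σ _ u (pair_expo_sub_nonneg σ j)]
  have h5 : ∀ i, ∑ j, (((expo j i - expo (jmin σ) i : ℤ)) : ℂ) * χ j = 0 := by
    intro i
    have h6 : ∀ j, (((expo j i - expo (jmin σ) i : ℤ)) : ℂ) =
        ∑ l, ((pair (dual σ l) (ei i) : ℤ) : ℂ) *
          ((pair (expo j - expo (jmin σ)) (ray (cone σ l)) : ℤ) : ℂ) := by
      intro j
      have h7 := pair_expand σ (expo j - expo (jmin σ)) (ei i)
      have h8 : pair (expo j - expo (jmin σ)) (ei i) = expo j i - expo (jmin σ) i := by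
        fin_cases i <;> simp [pair, ei]
      rw [← h8, h7, Int.cast_sum]
      exact Finset.sum_congr rfl fun l _ => Int.cast_mul _ _
    simp only [h6]
    have h9 : ∑ j, (∑ l, ((pair (dual σ l) (ei i) : ℤ) : ℂ) *
          ((pair (expo j - expo (jmin σ)) (ray (cone σ l)) : ℤ) : ℂ)) * χ j =
        ∑ l, ((pair (dual σ l) (ei i) : ℤ) : ℂ) *
          ∑ j, ((pair (expo j - expo (jmin σ)) (ray (cone σ l)) : ℤ) : ℂ) * χ j := by
      simp only [Finset.sum_mul, Finset.mul_sum]
      rw [Finset.sum_comm]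
      exact Finset.sum_congr rfl fun l _ => Finset.sum_congr rfl fun j _ => mul_assoc _ _ _
    rw [h9]
    simp only [h1, mul_zero, Finset.sum_const_zero]
  have hs : ∑ j, χ j = 0 := h0
  have h10 : ∀ i, ∑ j, ((expo j i : ℤ) : ℂ) * χ j = 0 := by
    intro i
    have h11 : ∑ j, ((expo j i : ℤ) : ℂ) * χ j =
        ∑ j, (((expo j i - expo (jmin σ) i : ℤ)) : ℂ) * χ j +
          ((expo (jmin σ) i : ℤ) : ℂ) * ∑ j, χ j := by
      rw [Finset.mul_sum, ← Finset.sum_add_distrib]
      refine Finset.sum_congr rfl fun j _ => ?_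
      push_cast
      ring
    rw [h11, h5, hs, mul_zero, add_zero]
  have e0 := h10 0
  have e1 := h10 1
  have e2 := h10 2
  have e3 := h10 3
  simp only [Fin.sum_univ_four, expo, Matrix.cons_val_zero, Matrix.cons_val_one,
    Matrix.cons_val] at e0 e1 e2 e3
  push_cast at e0 e1 e2 e3
  have z0 : χ 0 = 0 := by linear_combination e0 / 2
  have z1 : χ 1 = 0 := by linear_combination e2 / 2
  have z3 : χ 3 = 0 := by linear_combination (e1 - e3 - z0) / 3
  have z2 : χ 2 = 0 := by linear_combination (e3 - z1 - z3) / 2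
  have zall : ∀ j, χ j = 0 := by
    intro j
    fin_cases j
    · exact z0
    · exact z1
    · exact z2
    · exact z3
  have := zall (jmin σ)
  rw [hχ] at this
  simp only [sub_self, chi_zero] at this
  exact one_ne_zero this

/-! ### The local form -/

/-- the index of the component given by the coordinate `k` -/
noncomputable def aa (σ : Fin 48) (u₀ : Fin 4 → ℂ) (k : Fin 4) : Option ToricCore.JJ :=
  open Classical in
  if h : u₀ k = 0 ∧ rN (cone σ k) ≠ 0 then some (some ⟨cone σ k, h.2⟩) else none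

theorem aa_some {σ : Fin 48} {u₀ : Fin 4 → ℂ} {k : Fin 4} {j : ToricCore.JJ}
    (h : aa σ u₀ k = some j) : u₀ k = 0 ∧ ∃ h2 : rN (cone σ k) ≠ 0, j = some ⟨cone σ k, h2⟩ := by
  unfold aa at h
  split_ifs at h with h1
  exact ⟨h1.1, h1.2, (Option.some.inj h).symm⟩

theorem aa_of_ne {σ : Fin 48} {u₀ : Fin 4 → ℂ} {k : Fin 4} (h : u₀ k ≠ 0) :
    aa σ u₀ k = none := by
  unfold aa
  rw [dif_neg]
  exact fun h1 => h h1.1

theorem aa_of_eq {σ : Fin 48} {u₀ : Fin 4 → ℂ} {k : Fin 4} (h : u₀ k = 0)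
    (h2 : rN (cone σ k) ≠ 0) : aa σ u₀ k = some (some ⟨cone σ k, h2⟩) := by
  unfold aa
  rw [dif_pos ⟨h, h2⟩]

theorem aa_NN (σ : Fin 48) (u₀ : Fin 4 → ℂ) (k : Fin 4) [Decidable (u₀ k = 0)] :
    (aa σ u₀ k).elim 0 ToricCore.NN = if u₀ k = 0 then rN (cone σ k) else 0 := by
  split_ifs with h
  · by_cases h2 : rN (cone σ k) = 0
    · unfold aa
      rw [dif_neg (fun h1 => h1.2 h2), h2]
      rfl
    · rw [aa_of_eq h h2]
      rfl
  · rw [aa_of_ne h]
    rfl

theorem aa_nunu (σ : Fin 48) (u₀ : Fin 4 → ℂ) (k : Fin 4) [Decidable (u₀ k = 0)] :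
    ((aa σ u₀ k).elim 0 fun j => ToricCore.nunu j - 1) =
      if u₀ k = 0 then rnu (cone σ k) - 1 else 0 := by
  split_ifs with h
  · by_cases h2 : rN (cone σ k) = 0
    · unfold aa
      rw [dif_neg (fun h1 => h1.2 h2), rnu_of_rN _ h2]
      rfl
    · rw [aa_of_eq h h2]
      rfl
  · rw [aa_of_ne h]
    rfl

/-- the invertible part of a monomial -/
noncomputable def ppoly (u₀ : Fin 4 → ℂ) (n : Fin 4 → ℕ) : MvPolynomial (Fin 4) ℂ :=
  open Classical in ∏ k, if u₀ k = 0 then 1 else X k ^ n k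

theorem eval_ppoly_ne (u₀ : Fin 4 → ℂ) (n : Fin 4 → ℕ) : eval u₀ (ppoly u₀ n) ≠ 0 := by
  classical
  rw [ppoly, map_prod, Finset.prod_ne_zero_iff]
  intro k _
  by_cases h : u₀ k = 0
  · rw [if_pos h, map_one]
    exact one_ne_zero
  · rw [if_neg h, map_pow, eval_X]
    exact pow_ne_zero _ h

theorem prod_split (u₀ u : Fin 4 → ℂ) (n : Fin 4 → ℕ) (e : Fin 4 → ℕ)
    (h1 : ∀ k, u₀ k = 0 → e k = n k) (h2 : ∀ k, u₀ k ≠ 0 → e k = 0) :
    ∏ k, u k ^ n k = eval u (ppoly u₀ n) * ∏ k, (u k - u₀ k) ^ e k := by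
  classical
  rw [ppoly, map_prod, ← Finset.prod_mul_distrib]
  refine Finset.prod_congr rfl fun k _ => ?_
  by_cases h : u₀ k = 0
  · rw [if_pos h, map_one, one_mul, h1 k h, h, sub_zero]
  · rw [if_neg h, h2 k h, pow_zero, mul_one, map_pow, eval_X]

theorem pderiv_tt (u₀ : Fin 4 → ℂ) (k l : Fin 4) :
    pderiv l (X k - C (u₀ k) : MvPolynomial (Fin 4) ℂ) = if k = l then 1 else 0 := by
  rw [map_sub, pderiv_C, sub_zero]
  split_ifs with h
  · rw [h, pderiv_X_self]
  · exact pderiv_X_of_ne h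

theorem tg (C : ToricCore) : TgStatement C := by
  classical
  intro y
  obtain ⟨i, u₀, rfl⟩ := C.exists_chart y
  refine ⟨i, u₀, rfl, ?_⟩
  -- common facts
  have hloc : ∀ k j, aa i u₀ k = some j →
      ∀ᶠ u in 𝓝 u₀, (C.chart i u ∈ C.EE j ↔ eval u (X k - MvPolynomial.C (u₀ k)) = 0) := by
    intro k j hj
    obtain ⟨h1, h2, rfl⟩ := aa_some hj
    refine Filter.Eventually.of_forall fun u => ?_
    have h3 : C.chart i u ∈ C.EE (some ⟨cone i k, h2⟩) ↔ C.chart i u ∈ C.Eray (cone i k) := Iff.rfl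
    rw [h3, C.chart_mem_Eray, map_sub, eval_X, eval_C, h1, sub_zero]
    constructor
    · rintro ⟨k', hk', hk''⟩
      rwa [cone_inj i k' k hk'] at hk''
    · intro h
      exact ⟨k, rfl, h⟩
  have hcov : ∀ ρ : {ρ : Fin 18 // rN ρ ≠ 0}, C.chart i u₀ ∈ C.EE (some ρ) →
      ∃ k, u₀ k = 0 ∧ aa i u₀ k = some (some ρ) := by
    rintro ⟨ρ, hρ⟩ h
    obtain ⟨k, rfl, hk⟩ := (C.chart_mem_Eray i u₀ ρ).1 h
    exact ⟨k, hk, aa_of_eq hk hρ⟩
  have hinj : ∀ k l j, aa i u₀ k = some j → aa i u₀ l = some j → k = l := by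
    intro k l j hk hl
    obtain ⟨_, h2, rfl⟩ := aa_some hk
    obtain ⟨_, h3, h4⟩ := aa_some hl
    exact cone_inj i k l (congrArg Subtype.val (Option.some.inj h4))
  have hff : ∀ u, ff (C.h (C.chart i u)) =
      eval u (ppoly u₀ fun k => rN (cone i k)) *
        (∏ k, (u k - u₀ k) ^ ((aa i u₀ k).elim 0 ToricCore.NN)) * ftil i u := by
    intro u
    rw [C.h_chart, ff_hmap_eq]
    congr 1
    refine prod_split _ _ _ _ (fun k hk => ?_) fun k hk => ?_
    · rw [aa_NN, if_pos hk]
    · rw [aa_NN, if_neg hk]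
  have hjac : ∀ u, (Matrix.of fun k l => eval u (pderiv l (Hpoly i k))).det =
      (VV i).det * (eval u (ppoly u₀ fun k => rnu (cone i k) - 1) *
        ∏ k, (u k - u₀ k) ^ ((aa i u₀ k).elim 0 fun j => ToricCore.nunu j - 1)) := by
    intro u
    rw [eval_jac_h]
    congr 1
    refine prod_split _ _ _ _ (fun k hk => ?_) fun k hk => ?_
    · rw [aa_nunu, if_pos hk]
    · rw [aa_nunu, if_neg hk]
  have heval : ∀ (u : Fin 4 → ℂ) k, eval u (X k - MvPolynomial.C (u₀ k)) = u k - u₀ k := by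
    intro u k
    rw [map_sub, eval_X, eval_C]
  by_cases hf : ftil i u₀ = 0
  · obtain ⟨k₀, hk₀, hg⟩ := exists_grad i u₀ hf
    set t : Fin 4 → MvPolynomial (Fin 4) ℂ := fun k =>
      if k = k₀ then Fpoly i else X k - MvPolynomial.C (u₀ k) with ht
    set a : Fin 4 → Option ToricCore.JJ := fun k => if k = k₀ then some none else aa i u₀ k with ha
    have ha0 : a k₀ = some none := by rw [ha]; exact if_pos rfl
    have ht0 : t k₀ = Fpoly i := by rw [ht]; exact if_pos rfl
    have ha1 : ∀ k, k ≠ k₀ → a k = aa i u₀ k := fun k hk => by rw [ha]; exact if_neg hk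
    have ht1 : ∀ k, k ≠ k₀ → t k = X k - MvPolynomial.C (u₀ k) := fun k hk => by
      rw [ht]; exact if_neg hk
    have hak₀ : aa i u₀ k₀ = none := aa_of_ne hk₀
    have hprod : ∀ (φ : ToricCore.JJ → ℕ) (u : Fin 4 → ℂ),
        ∏ k, eval u (t k) ^ (a k).elim 0 φ =
          ftil i u ^ φ none * ∏ k, (u k - u₀ k) ^ (aa i u₀ k).elim 0 φ := by
      intro φ u
      rw [← Finset.mul_prod_erase Finset.univ _ (Finset.mem_univ k₀),
        ← Finset.mul_prod_erase Finset.univ (fun k => (u k - u₀ k) ^ (aa i u₀ k).elim 0 φ)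
          (Finset.mem_univ k₀), ha0, ht0, hak₀, eval_Fpoly]
      simp only [Option.elim, pow_zero, one_mul]
      congr 1
      refine Finset.prod_congr rfl fun k hk => ?_
      have hk' := Finset.ne_of_mem_erase hk
      rw [ha1 k hk', ht1 k hk', heval]
    refine ⟨t, a, ?_, ?_, ?_, ?_, ?_, ?_, ?_⟩
    · intro k
      by_cases hk : k = k₀
      · rw [hk, ht0, eval_Fpoly, hf]
      · rw [ht1 k hk, heval, sub_self]
    · have hM : (Matrix.of fun k l => eval u₀ (pderiv l (t k))) =
          (1 : Matrix (Fin 4) (Fin 4) ℂ).updateRow k₀ (fun l => eval u₀ (pderiv l (Fpoly i))) := by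
        ext k l
        rw [Matrix.of_apply, Matrix.updateRow_apply]
        by_cases hk : k = k₀
        · rw [if_pos hk, hk, ht0]
        · rw [if_neg hk, ht1 k hk, pderiv_tt, Matrix.one_apply]
          split_ifs <;> simp
      rw [hM, ← Matrix.cramer_transpose_apply, Matrix.transpose_one, Matrix.cramer_one]
      exact hg
    · intro k l j hk hl
      by_cases hk0 : k = k₀
      · by_cases hl0 : l = k₀
        · rw [hk0, hl0]
        · exfalso
          rw [hk0, ha0] at hk
          rw [ha1 l hl0] at hl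
          obtain ⟨_, h2, h3⟩ := aa_some hl
          rw [← Option.some.inj hk] at h3
          exact absurd h3 (Option.some_ne_none _).symm
      · rw [ha1 k hk0] at hk
        by_cases hl0 : l = k₀
        · exfalso
          rw [hl0, ha0] at hl
          obtain ⟨_, h2, h3⟩ := aa_some hk
          rw [← Option.some.inj hl] at h3
          exact absurd h3 (Option.some_ne_none _).symm
        · rw [ha1 l hl0] at hl
          exact hinj k l j hk hl
    · intro j hj
      cases j with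
      | none => exact ⟨k₀, ha0⟩
      | some ρ =>
        obtain ⟨k, hk, hk'⟩ := hcov ρ hj
        refine ⟨k, ?_⟩
        rw [ha1 k, hk']
        rintro rfl
        exact hk₀ hk
    · intro k j hk
      by_cases hk0 : k = k₀
      · rw [hk0, ha0] at hk
        rw [hk0, ht0, ← Option.some.inj hk]
        refine Filter.Eventually.of_forall fun u => ?_
        rw [eval_Fpoly]
        exact C.chart_mem_Estr i u
      · rw [ha1 k hk0] at hk
        rw [ht1 k hk0]
        exact hloc k j hk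
    · refine ⟨ppoly u₀ fun k => rN (cone i k), 1, eval_ppoly_ne _ _, ?_, fun u => ?_⟩
      · rw [map_one]
        exact one_ne_zero
      · rw [map_one, one_mul, hff, hprod]
        simp only [ToricCore.NN, pow_one]
        ring
    · refine ⟨MvPolynomial.C (VV i).det * ppoly u₀ fun k => rnu (cone i k) - 1, 1, ?_, ?_,
        fun u => ?_⟩
      · rw [map_mul, eval_C]
        exact mul_ne_zero (det_VV i) (eval_ppoly_ne _ _)
      · rw [map_one]
        exact one_ne_zero
      · rw [map_one, one_mul, hjac, hprod, map_mul, eval_C]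
        simp only [ToricCore.nunu, Nat.sub_self, pow_zero, one_mul]
        ring
  · refine ⟨fun k => X k - MvPolynomial.C (u₀ k), aa i u₀, ?_, ?_, hinj, ?_, hloc, ?_, ?_⟩
    · intro k
      rw [heval, sub_self]
    · have hM : (Matrix.of fun k l => eval u₀ (pderiv l
          (X k - MvPolynomial.C (u₀ k) : MvPolynomial (Fin 4) ℂ))) = 1 := by
        ext k l
        rw [Matrix.of_apply, pderiv_tt, Matrix.one_apply]
        split_ifs <;> simp
      rw [hM, Matrix.det_one]
      exact one_ne_zero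
    · intro j hj
      cases j with
      | none => exact absurd ((C.chart_mem_Estr i u₀).1 hj) hf
      | some ρ =>
        obtain ⟨k, hk, hk'⟩ := hcov ρ hj
        exact ⟨k, hk'⟩
    · refine ⟨(ppoly u₀ fun k => rN (cone i k)) * Fpoly i, 1, ?_, ?_, fun u => ?_⟩
      · rw [map_mul, eval_Fpoly]
        exact mul_ne_zero (eval_ppoly_ne _ _) hf
      · rw [map_one]
        exact one_ne_zero
      · rw [map_one, one_mul, hff, map_mul, eval_Fpoly]
        simp only [heval]
        ring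
    · refine ⟨MvPolynomial.C (VV i).det * ppoly u₀ fun k => rnu (cone i k) - 1, 1, ?_, ?_,
        fun u => ?_⟩
      · rw [map_mul, eval_C]
        exact mul_ne_zero (det_VV i) (eval_ppoly_ne _ _)
      · rw [map_one]
        exact one_ne_zero
      · rw [map_one, one_mul, hjac, map_mul, eval_C]
        simp only [heval]
        ring

end Toric

end HoloConj
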