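import Pool.Agent.Lib.MP_ed311f_ag.Toric.Map

/-!
# T-h: the strata
-/

open Topology

namespace HoloConj

namespace Toric

theorem ftil_eq (σ : Fin 48) (u : Fin 4 → ℂ) : ftil σ u =
    ∑ j, ∏ k, u k ^ (pair (expo j) (ray (cone σ k)) - rN (cone σ k)).toNat := by
  rw [ftil]
  refine Finset.sum_congr rfl fun j _ => ?_
  rw [chi]
  refine Finset.prod_congr rfl fun k _ => ?_
  have h := pair_expo_sub_nonneg σ j k
  rw [pair_sub_left, jmin_spec] at h ⊢
  rw [← zpow_natCast, Int.toNat_of_nonneg h]

theorem ftil_one (u : Fin 4 → ℂ) : ftil 1 u =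
    u 0 ^ 2 * u 3 + 1 + u 1 + u 1 ^ 3 * u 2 ^ 4 * u 3 := by
  have e : ∀ j k, (pair (expo j) (ray (cone 1 k)) - rN (cone 1 k)).toNat =
      ![![2, 0, 0, 1], ![0, 0, 0, 0], ![0, 1, 0, 0], ![0, 3, 4, 1]] j k := by decide +kernel
  rw [ftil_eq]
  simp only [e, Fin.sum_univ_four, Fin.prod_univ_four]
  simp

theorem ftil_nineteen (u : Fin 4 → ℂ) : ftil 19 u =
    u 2 + 1 + u 0 + u 0 ^ 3 * u 1 ^ 4 * u 2 * u 3 ^ 2 := by
  have e : ∀ j k, (pair (expo j) (ray (cone 19 k)) - rN (cone 19 k)).toNat =
      ![![0, 0, 1, 0], ![0, 0, 0, 0], ![1, 0, 0, 0], ![3, 4, 1, 2]] j k := by decide +kernel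
  rw [ftil_eq]
  simp only [e, Fin.sum_univ_four, Fin.prod_univ_four]
  simp

theorem ftil_twenty (u : Fin 4 → ℂ) : ftil 20 u =
    1 + u 2 ^ 2 * u 3 + u 0 + u 0 ^ 3 * u 1 ^ 4 * u 2 ^ 4 * u 3 ^ 3 := by
  have e : ∀ j k, (pair (expo j) (ray (cone 20 k)) - rN (cone 20 k)).toNat =
      ![![0, 0, 0, 0], ![0, 0, 2, 1], ![1, 0, 0, 0], ![3, 4, 4, 3]] j k := by decide +kernel
  rw [ftil_eq]
  simp only [e, Fin.sum_univ_four, Fin.prod_univ_four]
  simp

theorem th_cone_inj : ∀ (σ : Fin 48) (k l : Fin 4), cone σ k = cone σ l → k = l := by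
  decide +kernel

namespace ToricCore

variable (C : ToricCore)

theorem chart_mem_strat (σ : Fin 48) (u : Fin 4 → ℂ) (I : Finset JJ) :
    C.chart σ u ∈ C.strat I ↔
      (∀ ρ : {ρ : Fin 18 // rN ρ ≠ 0}, (∃ k, cone σ k = ρ.1 ∧ u k = 0) ↔ some ρ ∈ I) ∧
      (ftil σ u = 0 ↔ none ∈ I) := by
  constructor
  · intro h
    refine ⟨fun ρ => ?_, ?_⟩
    · rw [← h (some ρ)]
      exact (C.chart_mem_Eray σ u ρ.1).symm
    · rw [← h none]
      exact (C.chart_mem_Estr σ u).symm
  · rintro ⟨h1, h2⟩ j
    cases j with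
    | none => exact (C.chart_mem_Estr σ u).trans h2
    | some ρ => exact (C.chart_mem_Eray σ u ρ.1).trans (h1 ρ)

/-- the stratum in a chart -/
theorem chart_mem_strat' (σ : Fin 48) (u : Fin 4 → ℂ) (I : Finset JJ) (K : Finset (Fin 4))
    (hI : none ∉ I)
    (hKI : ∀ ρ : {ρ : Fin 18 // rN ρ ≠ 0}, (∃ k ∈ K, cone σ k = ρ.1) ↔ some ρ ∈ I) :
    C.chart σ u ∈ C.strat I ↔
      (∀ k, rN (cone σ k) ≠ 0 → (u k = 0 ↔ k ∈ K)) ∧ ftil σ u ≠ 0 := by
  have hinj := th_cone_inj σ
  rw [chart_mem_strat]
  constructor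
  · rintro ⟨h1, h2⟩
    refine ⟨fun k hk => ?_, fun h => hI (h2.1 h)⟩
    constructor
    · intro hu
      obtain ⟨l, hl, hl'⟩ := (hKI ⟨cone σ k, hk⟩).2 ((h1 ⟨cone σ k, hk⟩).1 ⟨k, rfl, hu⟩)
      rwa [← hinj _ _ hl']
    · intro hkK
      obtain ⟨l, hl, hl'⟩ := (h1 ⟨cone σ k, hk⟩).2 ((hKI ⟨cone σ k, hk⟩).1 ⟨k, hkK, rfl⟩)
      rwa [← hinj _ _ hl]
  · rintro ⟨h1, h2⟩
    refine ⟨fun ρ => ?_, ⟨fun h => absurd h h2, fun h => absurd h hI⟩⟩
    rw [← hKI]
    constructor
    · rintro ⟨k, hk, hk'⟩
      exact ⟨k, (h1 k (by rw [hk]; exact ρ.2)).1 hk', hk⟩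
    · rintro ⟨k, hk, hk'⟩
      exact ⟨k, hk', (h1 k (by rw [hk']; exact ρ.2)).2 hk⟩

/-- All points of the stratum lie in the chart `σ`. -/
theorem strat_subset (σ : Fin 48) (I : Finset JJ)
    (hσ : ∀ τ : Fin 48, (∀ ρ : {ρ : Fin 18 // rN ρ ≠ 0}, some ρ ∈ I → ∃ l, cone τ l = ρ.1) →
      ∀ k : Fin 4, (∀ h : rN (cone τ k) ≠ 0, some ⟨cone τ k, h⟩ ∈ I) → ∃ l, cone σ l = cone τ k)
    (y : C.Pt) (hy : y ∈ C.strat I) : ∃ u, C.chart σ u = y := by
  obtain ⟨τ, v, rfl⟩ := C.exists_chart y
  obtain ⟨h1, h2⟩ := (C.chart_mem_strat τ v I).1 hy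
  refine ⟨fun l => chi τ (dual σ l) v, ?_⟩
  refine ((C.chart_eq_iff τ σ v _).2 ⟨?_, fun l => rfl⟩).symm
  intro k hk hvk
  have hA : ∀ ρ : {ρ : Fin 18 // rN ρ ≠ 0}, some ρ ∈ I → ∃ l, cone τ l = ρ.1 := by
    intro ρ hρ
    obtain ⟨k', h3, _⟩ := (h1 ρ).2 hρ
    exact ⟨k', h3⟩
  obtain ⟨l, hl⟩ := hσ τ hA k fun h => (h1 ⟨cone τ k, h⟩).1 ⟨k, rfl, hvk⟩
  exact hk l hl

/-- A stratum as the image of an embedding. -/
theorem strat_homeo {S : Type} [TopologicalSpace S] (σ : Fin 48) (I : Finset JJ)
    (φ : S → Fin 4 → ℂ) (hφ : IsEmbedding φ)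
    (hσ : ∀ τ : Fin 48, (∀ ρ : {ρ : Fin 18 // rN ρ ≠ 0}, some ρ ∈ I → ∃ l, cone τ l = ρ.1) →
      ∀ k : Fin 4, (∀ h : rN (cone τ k) ≠ 0, some ⟨cone τ k, h⟩ ∈ I) → ∃ l, cone σ l = cone τ k)
    (h : ∀ u, C.chart σ u ∈ C.strat I ↔ ∃ s, φ s = u) : Nonempty (C.strat I ≃ₜ S) := by
  have he : IsEmbedding (C.chart σ ∘ φ) := (C.isOpenEmbedding_chart σ).isEmbedding.comp hφ
  have hr : Set.range (C.chart σ ∘ φ) = C.strat I := by
    ext y
    constructor
    · rintro ⟨s, rfl⟩
      exact (h _).2 ⟨s, rfl⟩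
    · intro hy
      obtain ⟨u, rfl⟩ := C.strat_subset σ I hσ y hy
      obtain ⟨s, rfl⟩ := (h u).1 hy
      exact ⟨s, rfl⟩
  exact ⟨(he.toHomeomorph.trans (Homeomorph.setCongr hr)).symm⟩

end ToricCore

/-- an embedding from a continuous left inverse -/
theorem isEmbedding_of_left_inverse {S : Type} {p : S → Prop} [TopologicalSpace S]
    (φ : {s : S // p s} → Fin 4 → ℂ) (ψ : (Fin 4 → ℂ) → S) (hφ : Continuous φ) (hψ : Continuous ψ)
    (h : ∀ s, ψ (φ s) = s.1) : IsEmbedding φ := by
  refine IsEmbedding.of_comp hφ hψ ?_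
  have : ψ ∘ φ = Subtype.val := funext h
  rw [this]
  exact IsEmbedding.subtypeVal

theorem th_one (C : ToricCore) : Nonempty (C.strat {j7} ≃ₜ S1) := by
  refine C.strat_homeo 1 {j7} (fun s => ![s.1.1, s.1.2.1, 0, s.1.2.2]) ?_ (by decide +kernel) ?_
  · refine isEmbedding_of_left_inverse _ (fun u => (u 0, u 1, u 3)) ?_ (by fun_prop) fun _ => rfl
    refine continuous_pi fun k => ?_
    fin_cases k
    · exact continuous_fst.comp continuous_subtype_val
    · exact continuous_fst.comp (continuous_snd.comp continuous_subtype_val)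
    · exact continuous_const
    · exact continuous_snd.comp (continuous_snd.comp continuous_subtype_val)
  · intro u
    rw [C.chart_mem_strat' 1 u {j7} {2} (by decide) (by decide +kernel), ftil_one]
    constructor
    · rintro ⟨h1, h2⟩
      have g1 : u 1 ≠ 0 := fun h => absurd ((h1 1 (by decide)).1 h) (by decide)
      have g2 : u 2 = 0 := (h1 2 (by decide)).2 (by decide)
      have g3 : u 3 ≠ 0 := fun h => absurd ((h1 3 (by decide)).1 h) (by decide)
      refine ⟨⟨(u 0, u 1, u 3), g1, g3, fun h => h2 ?_⟩, ?_⟩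
      · rw [g2]
        linear_combination h
      · funext k
        fin_cases k
        · rfl
        · rfl
        · exact g2.symm
        · rfl
    · rintro ⟨⟨⟨s, a, b⟩, ha, hb, hc⟩, rfl⟩
      refine ⟨?_, fun h => hc ?_⟩
      · intro k hk
        fin_cases k
        · exact absurd rfl hk
        · exact iff_of_false ha (by decide)
        · exact iff_of_true rfl (by decide)
        · exact iff_of_false hb (by decide)
      · have h' : s ^ 2 * b + 1 + a + a ^ 3 * 0 ^ 4 * b = 0 := h
        linear_combination h'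

theorem th_two (C : ToricCore) : Nonempty (C.strat {j7, j10} ≃ₜ S2) := by
  refine C.strat_homeo 20 {j7, j10} (fun s => ![s.1.1, 0, 0, s.1.2]) ?_ (by decide +kernel) ?_
  · refine isEmbedding_of_left_inverse _ (fun u => (u 0, u 3)) ?_ (by fun_prop) fun _ => rfl
    refine continuous_pi fun k => ?_
    fin_cases k
    · exact continuous_fst.comp continuous_subtype_val
    · exact continuous_const
    · exact continuous_const
    · exact continuous_snd.comp continuous_subtype_val
  · intro u
    rw [C.chart_mem_strat' 20 u {j7, j10} {1, 2} (by decide) (by decide +kernel), ftil_twenty]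
    constructor
    · rintro ⟨h1, h2⟩
      have g0 : u 0 ≠ 0 := fun h => absurd ((h1 0 (by decide)).1 h) (by decide)
      have g1 : u 1 = 0 := (h1 1 (by decide)).2 (by decide)
      have g2 : u 2 = 0 := (h1 2 (by decide)).2 (by decide)
      have g3 : u 3 ≠ 0 := fun h => absurd ((h1 3 (by decide)).1 h) (by decide)
      refine ⟨⟨(u 0, u 3), g0, g3, fun h => h2 ?_⟩, ?_⟩
      · rw [g2, g1]
        linear_combination h
      · funext k
        fin_cases k
        · rfl
        · exact g1.symm
        · exact g2.symm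
        · rfl
    · rintro ⟨⟨⟨a, b⟩, ha, hb, hc⟩, rfl⟩
      refine ⟨?_, fun h => hc ?_⟩
      · intro k hk
        fin_cases k
        · exact iff_of_false ha (by decide)
        · exact iff_of_true rfl (by decide)
        · exact iff_of_true rfl (by decide)
        · exact iff_of_false hb (by decide)
      · have h' : 1 + 0 ^ 2 * b + a + a ^ 3 * 0 ^ 4 * 0 ^ 4 * b ^ 3 = 0 := h
        linear_combination h'

theorem th_three (C : ToricCore) : Nonempty (C.strat {j7, j9} ≃ₜ S3) := by
  refine C.strat_homeo 1 {j7, j9} (fun s => ![s.1.1, s.1.2, 0, 0]) ?_ (by decide +kernel) ?_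
  · refine isEmbedding_of_left_inverse _ (fun u => (u 0, u 1)) ?_ (by fun_prop) fun _ => rfl
    refine continuous_pi fun k => ?_
    fin_cases k
    · exact continuous_fst.comp continuous_subtype_val
    · exact continuous_snd.comp continuous_subtype_val
    · exact continuous_const
    · exact continuous_const
  · intro u
    rw [C.chart_mem_strat' 1 u {j7, j9} {2, 3} (by decide) (by decide +kernel), ftil_one]
    constructor
    · rintro ⟨h1, h2⟩
      have g1 : u 1 ≠ 0 := fun h => absurd ((h1 1 (by decide)).1 h) (by decide)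
      have g2 : u 2 = 0 := (h1 2 (by decide)).2 (by decide)
      have g3 : u 3 = 0 := (h1 3 (by decide)).2 (by decide)
      refine ⟨⟨(u 0, u 1), g1, fun h => h2 ?_⟩, ?_⟩
      · rw [g2, g3]
        linear_combination h
      · funext k
        fin_cases k
        · rfl
        · rfl
        · exact g2.symm
        · exact g3.symm
    · rintro ⟨⟨⟨a, b⟩, hb, hc⟩, rfl⟩
      refine ⟨?_, fun h => hc ?_⟩
      · intro k hk
        fin_cases k
        · exact absurd rfl hk
        · exact iff_of_false hb (by decide)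
        · exact iff_of_true rfl (by decide)
        · exact iff_of_true rfl (by decide)
      · have h' : a ^ 2 * 0 + 1 + b + b ^ 3 * 0 ^ 4 * 0 = 0 := h
        linear_combination h'

theorem th_four (C : ToricCore) : Nonempty (C.strat {j7, j14} ≃ₜ S4) := by
  refine C.strat_homeo 19 {j7, j14} (fun s => ![s.1.1, 0, s.1.2, 0]) ?_ (by decide +kernel) ?_
  · refine isEmbedding_of_left_inverse _ (fun u => (u 0, u 2)) ?_ (by fun_prop) fun _ => rfl
    refine continuous_pi fun k => ?_
    fin_cases k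
    · exact continuous_fst.comp continuous_subtype_val
    · exact continuous_const
    · exact continuous_snd.comp continuous_subtype_val
    · exact continuous_const
  · intro u
    rw [C.chart_mem_strat' 19 u {j7, j14} {1, 3} (by decide) (by decide +kernel), ftil_nineteen]
    constructor
    · rintro ⟨h1, h2⟩
      have g0 : u 0 ≠ 0 := fun h => absurd ((h1 0 (by decide)).1 h) (by decide)
      have g1 : u 1 = 0 := (h1 1 (by decide)).2 (by decide)
      have g2 : u 2 ≠ 0 := fun h => absurd ((h1 2 (by decide)).1 h) (by decide)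
      have g3 : u 3 = 0 := (h1 3 (by decide)).2 (by decide)
      refine ⟨⟨(u 0, u 2), g0, g2, fun h => h2 ?_⟩, ?_⟩
      · rw [g1, g3]
        linear_combination h
      · funext k
        fin_cases k
        · rfl
        · exact g1.symm
        · rfl
        · exact g3.symm
    · rintro ⟨⟨⟨a, b⟩, ha, hb, hc⟩, rfl⟩
      refine ⟨?_, fun h => hc ?_⟩
      · intro k hk
        fin_cases k
        · exact iff_of_false ha (by decide)
        · exact iff_of_true rfl (by decide)
        · exact iff_of_false hb (by decide)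
        · exact iff_of_true rfl (by decide)
      · have h' : b + 1 + a + a ^ 3 * 0 ^ 4 * b * 0 ^ 2 = 0 := h
        linear_combination h'

theorem th_five (C : ToricCore) : Nonempty (C.strat {j7, j9, j14} ≃ₜ S5) := by
  refine C.strat_homeo 19 {j7, j9, j14} (fun s => ![s.1, 0, 0, 0]) ?_ (by decide +kernel) ?_
  · refine isEmbedding_of_left_inverse _ (fun u => u 0) ?_ (by fun_prop) fun _ => rfl
    refine continuous_pi fun k => ?_
    fin_cases k
    · exact continuous_subtype_val
    · exact continuous_const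
    · exact continuous_const
    · exact continuous_const
  · intro u
    rw [C.chart_mem_strat' 19 u {j7, j9, j14} {1, 2, 3} (by decide) (by decide +kernel),
      ftil_nineteen]
    constructor
    · rintro ⟨h1, h2⟩
      have g0 : u 0 ≠ 0 := fun h => absurd ((h1 0 (by decide)).1 h) (by decide)
      have g1 : u 1 = 0 := (h1 1 (by decide)).2 (by decide)
      have g2 : u 2 = 0 := (h1 2 (by decide)).2 (by decide)
      have g3 : u 3 = 0 := (h1 3 (by decide)).2 (by decide)
      refine ⟨⟨u 0, g0, fun h => h2 ?_⟩, ?_⟩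
      · rw [g1, g2, g3]
        linear_combination h
      · funext k
        fin_cases k
        · rfl
        · exact g1.symm
        · exact g2.symm
        · exact g3.symm
    · rintro ⟨⟨a, ha, hc⟩, rfl⟩
      refine ⟨?_, fun h => hc ?_⟩
      · intro k hk
        fin_cases k
        · exact iff_of_false ha (by decide)
        · exact iff_of_true rfl (by decide)
        · exact iff_of_true rfl (by decide)
        · exact iff_of_true rfl (by decide)
      · have h' : (0 : ℂ) + 1 + a + a ^ 3 * 0 ^ 4 * 0 * 0 ^ 2 = 0 := h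
        linear_combination h'

theorem th_empty (C : ToricCore) (I : Finset ToricCore.JJ) (h7 : j7 ∈ I)
    (h4 : ∀ i ∈ I, 4 ∣ ToricCore.NN i) (n1 : I ≠ {j7}) (n2 : I ≠ {j7, j10}) (n3 : I ≠ {j7, j9})
    (n4 : I ≠ {j7, j14}) (n5 : I ≠ {j7, j9, j14}) : IsEmpty (C.strat I) := by
  refine ⟨fun ⟨y, hy⟩ => ?_⟩
  obtain ⟨σ, u, rfl⟩ := C.exists_chart y
  obtain ⟨h1, _⟩ := (C.chart_mem_strat σ u I).1 hy
  have key : ∀ σ : Fin 48, (∃ k, cone σ k = 7) →
      (∀ ρ : {ρ : Fin 18 // rN ρ ≠ 0}, 4 ∣ rN ρ.1 → (∃ k, cone σ k = ρ.1) →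
        ρ.1 = 7 ∨ ρ.1 = 10) ∨
      (∀ ρ : {ρ : Fin 18 // rN ρ ≠ 0}, 4 ∣ rN ρ.1 → (∃ k, cone σ k = ρ.1) →
        ρ.1 = 7 ∨ ρ.1 = 9 ∨ ρ.1 = 14) := by
    decide +kernel
  obtain ⟨k7, hk7, _⟩ := (h1 ⟨7, by decide⟩).2 h7
  have hI : I ⊆ {j7, j10} ∨ I ⊆ {j7, j9, j14} := by
    rcases key σ ⟨k7, hk7⟩ with h | h
    · left
      intro i hi
      cases i with
      | none => exact absurd (h4 none hi) (by decide)
      | some ρ =>
        obtain ⟨k, hk, _⟩ := (h1 ρ).2 hi
        have := h ρ (h4 _ hi) ⟨k, hk⟩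
        rw [Finset.mem_insert, Finset.mem_singleton]
        rcases this with h | h
        · exact Or.inl (congrArg some (Subtype.ext h))
        · exact Or.inr (congrArg some (Subtype.ext h))
    · right
      intro i hi
      cases i with
      | none => exact absurd (h4 none hi) (by decide)
      | some ρ =>
        obtain ⟨k, hk, _⟩ := (h1 ρ).2 hi
        have := h ρ (h4 _ hi) ⟨k, hk⟩
        rw [Finset.mem_insert, Finset.mem_insert, Finset.mem_singleton]
        rcases this with h | h | h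
        · exact Or.inl (congrArg some (Subtype.ext h))
        · exact Or.inr (Or.inl (congrArg some (Subtype.ext h)))
        · exact Or.inr (Or.inr (congrArg some (Subtype.ext h)))
  rcases hI with h | h
  · by_cases h10 : j10 ∈ I
    · refine n2 (Finset.Subset.antisymm h ?_)
      intro i hi
      rw [Finset.mem_insert, Finset.mem_singleton] at hi
      rcases hi with rfl | rfl <;> assumption
    · refine n1 (Finset.Subset.antisymm ?_ (Finset.singleton_subset_iff.2 h7))
      intro i hi
      have := h hi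
      rw [Finset.mem_insert, Finset.mem_singleton] at this
      rw [Finset.mem_singleton]
      rcases this with rfl | rfl
      · rfl
      · exact absurd hi h10
  · by_cases h9 : j9 ∈ I <;> by_cases h14 : j14 ∈ I
    · refine n5 (Finset.Subset.antisymm h ?_)
      intro i hi
      rw [Finset.mem_insert, Finset.mem_insert, Finset.mem_singleton] at hi
      rcases hi with rfl | rfl | rfl <;> assumption
    · refine n3 (Finset.Subset.antisymm ?_ ?_)
      · intro i hi
        have := h hi
        rw [Finset.mem_insert, Finset.mem_insert, Finset.mem_singleton] at this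
        rw [Finset.mem_insert, Finset.mem_singleton]
        rcases this with rfl | rfl | rfl
        · exact Or.inl rfl
        · exact Or.inr rfl
        · exact absurd hi h14
      · intro i hi
        rw [Finset.mem_insert, Finset.mem_singleton] at hi
        rcases hi with rfl | rfl <;> assumption
    · refine n4 (Finset.Subset.antisymm ?_ ?_)
      · intro i hi
        have := h hi
        rw [Finset.mem_insert, Finset.mem_insert, Finset.mem_singleton] at this
        rw [Finset.mem_insert, Finset.mem_singleton]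
        rcases this with rfl | rfl | rfl
        · exact Or.inl rfl
        · exact absurd hi h9
        · exact Or.inr rfl
      · intro i hi
        rw [Finset.mem_insert, Finset.mem_singleton] at hi
        rcases hi with rfl | rfl <;> assumption
    · refine n1 (Finset.Subset.antisymm ?_ (Finset.singleton_subset_iff.2 h7))
      intro i hi
      have := h hi
      rw [Finset.mem_insert, Finset.mem_insert, Finset.mem_singleton] at this
      rw [Finset.mem_singleton]
      rcases this with rfl | rfl | rfl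
      · rfl
      · exact absurd hi h9
      · exact absurd hi h14

theorem th (C : ToricCore) : ThStatement C :=
  ⟨th_one C, th_two C, th_three C, th_four C, th_five C, th_empty C⟩

end Toric

end HoloConj
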